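import Mathlib

set_option autoImplicit false

open Complex Metric Set Filter Topology MeasureTheory Asymptotics

namespace Pool.Agent.Results.MP_034cab_an.GrowthRate

/-- The `n`-th Taylor coefficient at the origin. -/
noncomputable def coeff (f : ℂ → ℂ) (n : ℕ) : ℂ := iteratedDeriv n f 0 / (n.factorial : ℂ)

/-- `S f N = sum_{n=1}^N |a_n|^2`. -/
noncomputable def S (f : ℂ → ℂ) (N : ℕ) : ℝ := ∑ n ∈ Finset.Icc 1 N, ‖coeff f n‖ ^ 2

/-- The class of Bloch functions on the unit disc with positive real part and `f 0 = 1`. -/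
structure BlochPos (f : ℂ → ℂ) : Prop where
  holo : DifferentiableOn ℂ f (ball (0 : ℂ) 1)
  bloch : ∃ B : ℝ, ∀ z ∈ ball (0 : ℂ) 1, (1 - ‖z‖ ^ 2) * ‖deriv f z‖ ≤ B
  one : f 0 = 1
  pos : ∀ z ∈ ball (0 : ℂ) 1, 0 < (f z).re

lemma hasSum_taylor {g : ℂ → ℂ} (hg : DifferentiableOn ℂ g (ball 0 1)) {z : ℂ} (hz : ‖z‖ < 1) :
    HasSum (fun n => coeff g n * z ^ n) (g z) := by
  have h := Complex.hasSum_taylorSeries_on_ball (f := g) (c := 0) (r := 1) (by simpa using hg) (z := z) (by simpa using hz)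
  have e : (fun n => coeff g n * z ^ n) = (fun n : ℕ ↦ ((n.factorial : ℂ))⁻¹ • (z - 0) ^ n • iteratedDeriv n g 0) := by
    funext n
    simp [coeff, div_eq_mul_inv]; ring
  rw [e]; exact h

lemma summable_coeff {g : ℂ → ℂ} (hg : DifferentiableOn ℂ g (ball 0 1)) {r : ℝ} (hr0 : 0 ≤ r) (hr : r < 1) :
    Summable (fun n => ‖coeff g n‖ * r ^ n) := by
  obtain ⟨ρ, h1, h2⟩ := exists_between hr
  have hρ : (0:ℝ) < ρ := lt_of_le_of_lt hr0 h1
  have hs := (hasSum_taylor hg (z := (ρ:ℂ)) (by simpa [abs_of_pos hρ] using h2)).summable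
  have hb := hs.tendsto_atTop_zero.norm.bddAbove_range
  obtain ⟨M, hM⟩ := hb
  have hM' : ∀ n, ‖coeff g n‖ * ρ ^ n ≤ M := by
    intro n
    have := hM (mem_range_self n)
    simpa [abs_of_pos hρ] using this
  have hMn : Summable (fun n : ℕ => M * (r / ρ) ^ n) := by
    apply Summable.mul_left
    apply summable_geometric_of_lt_one (by positivity)
    rw [div_lt_one hρ]; exact h1
  refine Summable.of_nonneg_of_le (fun n => by positivity) (fun n => ?_) hMn
  calc ‖coeff g n‖ * r ^ n = (‖coeff g n‖ * ρ ^ n) * (r / ρ) ^ n := by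
        rw [div_pow]; field_simp
    _ ≤ M * (r / ρ) ^ n := by
        apply mul_le_mul_of_nonneg_right (hM' n) (by positivity)

lemma parseval_aux {g : ℂ → ℂ} {b : ℕ → ℂ} (hb : Summable (fun n => ‖b n‖))
    (hg : ∀ z : ℂ, ‖z‖ = 1 → HasSum (fun n => b n * z ^ n) (g z)) :
    HasSum (fun n => ‖b n‖ ^ 2) (Real.circleAverage (fun z => ‖g z‖ ^ 2) 0 1) := by
  rw [hasSum_iff_tendsto_nat_of_nonneg (fun n => by positivity)]
  set p : ℕ → Polynomial ℂ := fun N => ∑ n ∈ Finset.range N, Polynomial.monomial n (b n) with hp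
  have hpc : ∀ N n, (p N).coeff n = if n < N then b n else 0 := by
    intro N n
    simp [hp, Polynomial.finsetSum_coeff, Polynomial.coeff_monomial]
  have hpe : ∀ N z, (p N).eval z = ∑ n ∈ Finset.range N, b n * z ^ n := by
    intro N z
    simp [hp, Polynomial.eval_finsetSum, Polynomial.eval_monomial]
  have h1 : ∀ N, ∑ n ∈ Finset.range N, ‖b n‖ ^ 2 = Real.circleAverage (fun z ↦ ‖(p N).eval z‖ ^ 2) 0 1 := by
    intro N
    rw [← Polynomial.sum_sq_norm_coeff_eq_circleAverage]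
    symm
    apply Finset.sum_subset_zero_on_sdiff
    · intro n hn
      rw [Polynomial.mem_support_iff, hpc] at hn
      simp at hn ⊢
      exact hn.1
    · intro n hn
      rw [Finset.mem_sdiff, Polynomial.notMem_support_iff, hpc] at hn
      simp at hn
      rw [hn.2 hn.1]; simp
    · intro n hn
      rw [Polynomial.mem_support_iff, hpc] at hn
      rw [hpc]
      split_ifs at hn ⊢ with h
      · rfl
      · exact absurd rfl hn
  simp_rw [h1]
  unfold Real.circleAverage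
  apply Tendsto.const_smul
  apply intervalIntegral.tendsto_integral_filter_of_dominated_convergence (fun _ => (∑' n, ‖b n‖) ^ 2)
  · refine Eventually.of_forall (fun N => ?_)
    apply Continuous.aestronglyMeasurable
    have : Continuous (fun z : ℂ => ‖(p N).eval z‖ ^ 2) := by
      exact (((p N).continuous).norm).pow 2
    exact this.comp (continuous_circleMap 0 1)
  · refine Eventually.of_forall (fun N => Eventually.of_forall (fun θ _ => ?_))
    rw [Real.norm_of_nonneg (by positivity)]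
    dsimp only
    rw [hpe]
    apply pow_le_pow_left₀ (norm_nonneg _)
    refine (norm_sum_le _ _).trans ?_
    refine le_trans (le_of_eq ?_) (hb.sum_le_tsum (Finset.range N) (fun i _ => norm_nonneg _))
    apply Finset.sum_congr rfl
    intro n _
    rw [norm_mul, norm_pow, norm_circleMap_zero]; simp
  · exact intervalIntegrable_const
  · refine Eventually.of_forall (fun θ _ => ?_)
    have hz : ‖circleMap 0 1 θ‖ = 1 := by rw [norm_circleMap_zero]; simp
    have := (hg _ hz).tendsto_sum_nat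
    simp_rw [hpe]
    exact (this.norm).pow 2

lemma circleAverage_scale (F : ℂ → ℝ) (r : ℝ) :
    Real.circleAverage (fun z => F (r * z)) 0 1 = Real.circleAverage F 0 r := by
  unfold Real.circleAverage
  congr 1
  apply intervalIntegral.integral_congr
  intro θ _
  simp [circleMap]

lemma parseval {g : ℂ → ℂ} (hg : DifferentiableOn ℂ g (ball 0 1)) {r : ℝ} (hr0 : 0 ≤ r) (hr : r < 1) :
    HasSum (fun n => ‖coeff g n‖ ^ 2 * (r ^ 2) ^ n) (Real.circleAverage (fun z => ‖g z‖ ^ 2) 0 r) := by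
  rw [← circleAverage_scale]
  have := parseval_aux (g := fun z => g (r * z)) (b := fun n => coeff g n * r ^ n) ?_ ?_
  · have e : (fun n => ‖coeff g n‖ ^ 2 * (r ^ 2) ^ n) = (fun n => ‖coeff g n * (r:ℂ) ^ n‖ ^ 2) := by
      funext n
      rw [norm_mul, norm_pow, Complex.norm_real, Real.norm_of_nonneg hr0, mul_pow, ← pow_mul, ← pow_mul, mul_comm 2 n]
    rw [e]; exact this
  · have := summable_coeff hg hr0 hr
    simpa [abs_of_nonneg hr0] using this
  · intro z hz
    have := hasSum_taylor hg (z := r * z) (by simp [hz, abs_of_nonneg hr0, hr])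
    simpa [mul_pow, mul_assoc] using this

lemma hasDerivAt_powser {c : ℕ → ℝ} (hc : ∀ ρ : ℝ, 0 ≤ ρ → ρ < 1 → Summable (fun n => |c n| * ρ ^ n))
    {s : ℝ} (hs : |s| < 1) :
    HasDerivAt (fun s => ∑' n, c n * s ^ n) (∑' n, c n * (n * s ^ (n - 1))) s := by
  obtain ⟨ρ, h1, h2⟩ := exists_between hs
  obtain ⟨ρ', h3, h4⟩ := exists_between h2
  have hρ : 0 < ρ := lt_of_le_of_lt (abs_nonneg s) h1
  have hρ' : 0 < ρ' := hρ.trans h3
  have hq : ρ / ρ' < 1 := by rw [div_lt_one hρ']; exact h3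
  have hq0 : 0 ≤ ρ / ρ' := by positivity
  obtain ⟨K, hK⟩ := (tendsto_self_mul_const_pow_of_lt_one hq0 hq).bddAbove_range
  have hK' : ∀ n : ℕ, (n : ℝ) * ρ ^ n ≤ K * ρ' ^ n := by
    intro n
    have := hK (mem_range_self n)
    simp only [div_pow] at this
    rw [← mul_div_assoc, div_le_iff₀ (by positivity)] at this
    exact this
  have hu : Summable (fun n : ℕ => (K / ρ) * (|c n| * ρ' ^ n)) := (hc ρ' hρ'.le h4).mul_left _
  apply hasDerivAt_tsum_of_isPreconnected (g := fun n s => c n * s ^ n) (g' := fun n s => c n * (n * s ^ (n - 1))) hu (t := ball (0:ℝ) ρ) isOpen_ball (convex_ball 0 ρ).isPreconnected (y₀ := 0)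
  · intro n y _
    exact (hasDerivAt_pow n y).const_mul (c n)
  · intro n y hy
    have hy' : |y| ≤ ρ := by simpa using (mem_ball_zero_iff.mp hy).le
    rw [norm_mul, norm_mul, norm_pow, Real.norm_eq_abs, Real.norm_eq_abs, Real.norm_eq_abs, Nat.abs_cast]
    rcases Nat.eq_zero_or_pos n with h0 | h0
    · subst h0
      simp
      have hK0 : 0 ≤ K := by
        have := hK' 0
        simp at this; exact this
      positivity
    · have e1 : (n : ℝ) * |y| ^ (n - 1) ≤ n * ρ ^ (n - 1) := by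
        apply mul_le_mul_of_nonneg_left _ (Nat.cast_nonneg n)
        exact pow_le_pow_left₀ (abs_nonneg y) hy' _
      have e2 : (n : ℝ) * ρ ^ (n - 1) = (n * ρ ^ n) / ρ := by
        obtain ⟨m, rfl⟩ := Nat.exists_eq_succ_of_ne_zero h0.ne'
        simp [pow_succ]; field_simp
      calc |c n| * (n * |y| ^ (n - 1)) ≤ |c n| * ((n * ρ ^ n) / ρ) := by
            rw [← e2]; exact mul_le_mul_of_nonneg_left e1 (abs_nonneg _)
        _ ≤ |c n| * ((K * ρ' ^ n) / ρ) := by
            apply mul_le_mul_of_nonneg_left _ (abs_nonneg _)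
            apply div_le_div_of_nonneg_right (hK' n) hρ.le
        _ = _ := by ring
  · simp [hρ]
  · apply summable_of_hasFiniteSupport
    refine (Set.finite_singleton 0).subset ?_
    intro n hn
    simp only [Function.mem_support] at hn
    by_contra h
    apply hn
    simp at h
    simp [h]
  · simpa using h1

lemma ode_bound {E E1 G1 : ℝ → ℝ} {κ : ℝ} (hκ : 0 ≤ κ)
    (hE : ∀ s ∈ Ico (0:ℝ) 1, HasDerivAt E (E1 s) s)
    (hG : ∀ s ∈ Ico (0:ℝ) 1, HasDerivAt (fun s => s * E1 s) (G1 s) s)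
    (hpos : ∀ s ∈ Ico (0:ℝ) 1, 0 ≤ E s)
    (hineq : ∀ s ∈ Ico (0:ℝ) 1, G1 s ≤ κ / (1 - s) ^ 2 * E s) :
    ∀ s ∈ Ico (0:ℝ) 1, E s * (1 - s) ^ κ ≤ E 0 := by
  -- K(s) = (1-s) * (s E1) - κ s E
  set K : ℝ → ℝ := fun s => (1 - s) * (s * E1 s) - κ * (s * E s) with hK
  have hKd : ∀ s ∈ Ico (0:ℝ) 1, HasDerivAt K ((-1) * (s * E1 s) + (1 - s) * G1 s - κ * (1 * E s + s * E1 s)) s := by
    intro s hs
    have a1 : HasDerivAt (fun s : ℝ => 1 - s) (-1) s := by
      simpa using (hasDerivAt_id s).const_sub 1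
    have a2 := a1.mul (hG s hs)
    have a3 := ((hasDerivAt_id s).mul (hE s hs)).const_mul κ
    exact a2.sub a3
  have hrp : ∀ (p : ℝ), ∀ s ∈ Ico (0:ℝ) 1, HasDerivAt (fun s : ℝ => (1 - s) ^ p) (-(p * (1 - s) ^ (p - 1))) s := by
    intro p s hs
    have a1 : HasDerivAt (fun s : ℝ => 1 - s) (-1) s := by
      simpa using (hasDerivAt_id s).const_sub 1
    have := a1.rpow_const (p := p) (Or.inl (by have := hs.2; linarith : (1:ℝ) - s ≠ 0))
    convert this using 1
    ring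
  have hKle : ∀ s ∈ Ico (0:ℝ) 1, K s ≤ 0 := by
    have hd : ∀ s ∈ Ico (0:ℝ) 1, HasDerivAt (fun s => K s * (1 - s) ^ (-(1 + κ)))
        (((-1) * (s * E1 s) + (1 - s) * G1 s - κ * (1 * E s + s * E1 s)) * (1 - s) ^ (-(1 + κ))
          + K s * (-((-(1 + κ)) * (1 - s) ^ (-(1 + κ) - 1)))) s := by
      intro s hs
      exact (hKd s hs).mul (hrp _ s hs)
    have hanti : AntitoneOn (fun s => K s * (1 - s) ^ (-(1 + κ))) (Ico (0:ℝ) 1) := by
      apply antitoneOn_of_deriv_nonpos (convex_Ico 0 1)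
      · intro s hs; exact (hd s hs).continuousAt.continuousWithinAt
      · intro s hs
        rw [interior_Ico] at hs
        exact (hd s ⟨hs.1.le, hs.2⟩).differentiableAt.differentiableWithinAt
      · intro s hs
        rw [interior_Ico] at hs
        have hs' : s ∈ Ico (0:ℝ) 1 := ⟨hs.1.le, hs.2⟩
        rw [(hd s hs').deriv]
        have h1s : 0 < 1 - s := by linarith [hs.2]
        have e : (1 - s) ^ (-(1 + κ) - 1) = (1 - s) ^ (-(1 + κ)) / (1 - s) := by
          rw [Real.rpow_sub_one h1s.ne']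
        rw [e]
        have hY : 0 < (1 - s) ^ (-(1 + κ)) := Real.rpow_pos_of_pos h1s _
        have key : ((-1) * (s * E1 s) + (1 - s) * G1 s - κ * (1 * E s + s * E1 s)) + K s * (1 + κ) / (1 - s) ≤ 0 := by
          have h2 : (1 - s) * G1 s ≤ κ * E s / (1 - s) := by
            have := mul_le_mul_of_nonneg_left (hineq s hs') h1s.le
            calc (1 - s) * G1 s ≤ (1 - s) * (κ / (1 - s) ^ 2 * E s) := this
              _ = _ := by field_simp
          have h3 : K s * (1 + κ) / (1 - s) = (1 + κ) * (s * E1 s) - κ * (1 + κ) * s * E s / (1 - s) := by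
            simp only [hK]; field_simp
          rw [h3]
          have h4 : κ * E s / (1 - s) = κ * E s + κ * s * E s / (1 - s) := by
            field_simp; ring
          have h5 : 0 ≤ κ * κ * s * E s / (1 - s) := by
            have := hpos s hs'
            have := hs.1.le
            positivity
          have h6 : κ * (1 + κ) * s * E s / (1 - s) = κ * s * E s / (1 - s) + κ * κ * s * E s / (1 - s) := by
            ring
          rw [h6]
          nlinarith
        have : ((-1) * (s * E1 s) + (1 - s) * G1 s - κ * (1 * E s + s * E1 s)) * (1 - s) ^ (-(1 + κ))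
          + K s * (-((-(1 + κ)) * ((1 - s) ^ (-(1 + κ)) / (1 - s)))) =
          (((-1) * (s * E1 s) + (1 - s) * G1 s - κ * (1 * E s + s * E1 s)) + K s * (1 + κ) / (1 - s)) * (1 - s) ^ (-(1 + κ)) := by
          ring
        rw [this]
        exact mul_nonpos_of_nonpos_of_nonneg key hY.le
    intro s hs
    have h0 := hanti (by simp : (0:ℝ) ∈ Ico (0:ℝ) 1) hs hs.1
    simp only [hK] at h0
    have h1s : 0 < 1 - s := by linarith [hs.2]
    have hY : 0 < (1 - s) ^ (-(1 + κ)) := Real.rpow_pos_of_pos h1s _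
    have : K s * (1 - s) ^ (-(1 + κ)) ≤ 0 := by simpa using h0
    by_contra hcon
    push Not at hcon
    have := mul_pos hcon hY
    linarith
  have hd2 : ∀ s ∈ Ico (0:ℝ) 1, HasDerivAt (fun s => E s * (1 - s) ^ κ)
      (E1 s * (1 - s) ^ κ + E s * (-(κ * (1 - s) ^ (κ - 1)))) s := by
    intro s hs
    exact (hE s hs).mul (hrp _ s hs)
  have hanti : AntitoneOn (fun s => E s * (1 - s) ^ κ) (Ico (0:ℝ) 1) := by
    apply antitoneOn_of_deriv_nonpos (convex_Ico 0 1)
    · intro s hs; exact (hd2 s hs).continuousAt.continuousWithinAt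
    · intro s hs
      rw [interior_Ico] at hs
      exact (hd2 s ⟨hs.1.le, hs.2⟩).differentiableAt.differentiableWithinAt
    · intro s hs
      rw [interior_Ico] at hs
      have hs' : s ∈ Ico (0:ℝ) 1 := ⟨hs.1.le, hs.2⟩
      rw [(hd2 s hs').deriv]
      have h1s : 0 < 1 - s := by linarith [hs.2]
      rw [Real.rpow_sub_one h1s.ne']
      have hY : 0 < (1 - s) ^ κ := Real.rpow_pos_of_pos h1s _
      have hk := hKle s hs'
      simp only [hK] at hk
      have h7 : (1 - s) * E1 s - κ * E s ≤ 0 := by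
        have : s * ((1 - s) * E1 s - κ * E s) ≤ 0 := by nlinarith
        by_contra hcon
        push Not at hcon
        have := mul_pos hs.1 hcon
        linarith
      have : E1 s * (1 - s) ^ κ + E s * (-(κ * ((1 - s) ^ κ / (1 - s)))) = ((1 - s) * E1 s - κ * E s) * ((1 - s) ^ κ / (1 - s)) := by
        field_simp; ring
      rw [this]
      apply mul_nonpos_of_nonpos_of_nonneg h7 (by positivity)
  intro s hs
  have h0 := hanti (by simp : (0:ℝ) ∈ Ico (0:ℝ) 1) hs hs.1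
  simpa using h0


lemma coeff_deriv (g : ℂ → ℂ) (n : ℕ) : coeff (deriv g) n = (n + 1) * coeff g (n + 1) := by
  unfold coeff
  rw [iteratedDeriv_succ', Nat.factorial_succ]
  have : (n.factorial : ℂ) ≠ 0 := by exact_mod_cast Nat.factorial_ne_zero n
  have h2 : ((n:ℂ) + 1) ≠ 0 := by exact_mod_cast Nat.succ_ne_zero n
  push_cast
  field_simp

lemma circleIntegrable_of_contOn {F : ℂ → ℝ} (hF : ContinuousOn F (ball 0 1)) {r : ℝ} (hr0 : 0 ≤ r) (hr : r < 1) :
    CircleIntegrable F 0 r := by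
  apply ContinuousOn.circleIntegrable hr0
  apply hF.mono
  intro z hz
  simp at hz ⊢
  rw [hz]; exact hr

lemma mem_sphere_abs {r : ℝ} (hr0 : 0 ≤ r) {z : ℂ} (hz : z ∈ sphere (0:ℂ) |r|) : ‖z‖ = r := by
  simpa [abs_of_nonneg hr0] using hz

/-- growth of the mean of `2 sinh (l u)` -/
lemma growth {f : ℂ → ℂ} (hf : DifferentiableOn ℂ f (ball 0 1)) (hpos : ∀ z ∈ ball (0:ℂ) 1, 0 < (f z).re)
    {B : ℝ} (hB : ∀ z ∈ ball (0:ℂ) 1, (1 - ‖z‖ ^ 2) * ‖deriv f z‖ ≤ B) {l : ℝ} (hl : 0 < l)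
    {r : ℝ} (hr0 : 0 ≤ r) (hr : r < 1) :
    Real.circleAverage (fun z => Real.exp (l * (f z).re) - Real.exp (-(l * (f z).re))) 0 r * (1 - r ^ 2) ^ (l ^ 2 * B ^ 2 / 4)
      ≤ Real.exp (l * (f 0).re) - Real.exp (-(l * (f 0).re)) := by
  have hB0 : 0 ≤ B := by
    refine le_trans ?_ (hB 0 (by simp))
    simp
  set gp : ℂ → ℂ := fun z => cexp ((l / 2 : ℝ) * f z) with hgp
  set gm : ℂ → ℂ := fun z => cexp (-((l / 2 : ℝ) * f z)) with hgm
  have dgp : DifferentiableOn ℂ gp (ball 0 1) := (hf.const_mul _).cexp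
  have dgm : DifferentiableOn ℂ gm (ball 0 1) := (hf.const_mul _).neg.cexp
  have ddgp : DifferentiableOn ℂ (deriv gp) (ball 0 1) := dgp.deriv isOpen_ball
  have ddgm : DifferentiableOn ℂ (deriv gm) (ball 0 1) := dgm.deriv isOpen_ball
  have ngp : ∀ z, ‖gp z‖ ^ 2 = Real.exp (l * (f z).re) := by
    intro z
    simp only [hgp, Complex.norm_exp]
    rw [← Real.exp_nat_mul]
    congr 1
    simp; ring
  have ngm : ∀ z, ‖gm z‖ ^ 2 = Real.exp (-(l * (f z).re)) := by
    intro z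
    simp only [hgm, Complex.norm_exp]
    rw [← Real.exp_nat_mul]
    congr 1
    simp; ring
  have hdp : ∀ z ∈ ball (0:ℂ) 1, ‖deriv gp z‖ ^ 2 = l ^ 2 / 4 * ‖deriv f z‖ ^ 2 * ‖gp z‖ ^ 2 := by
    intro z hz
    have hfz : HasDerivAt f (deriv f z) z := (hf.differentiableAt (isOpen_ball.mem_nhds hz)).hasDerivAt
    have := ((hfz.const_mul ((l / 2 : ℝ) : ℂ)).cexp).deriv
    simp only [hgp]
    rw [this, norm_mul, norm_mul, mul_pow, mul_pow, Complex.norm_real, Real.norm_of_nonneg (by positivity)]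
    ring
  have hdm : ∀ z ∈ ball (0:ℂ) 1, ‖deriv gm z‖ ^ 2 = l ^ 2 / 4 * ‖deriv f z‖ ^ 2 * ‖gm z‖ ^ 2 := by
    intro z hz
    have hfz : HasDerivAt f (deriv f z) z := (hf.differentiableAt (isOpen_ball.mem_nhds hz)).hasDerivAt
    have : deriv (fun z => cexp (-(((l / 2 : ℝ) : ℂ) * f z))) z = cexp (-(((l / 2 : ℝ) : ℂ) * f z)) * -(((l / 2 : ℝ) : ℂ) * deriv f z) :=
      ((hfz.const_mul ((l / 2 : ℝ) : ℂ)).neg.cexp).deriv
    simp only [hgm]
    rw [this, norm_mul, norm_neg, norm_mul, mul_pow, mul_pow, Complex.norm_real, Real.norm_of_nonneg (by positivity)]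
    ring
  set c : ℕ → ℝ := fun n => ‖coeff gp n‖ ^ 2 - ‖coeff gm n‖ ^ 2 with hc
  -- summability
  have hsum : ∀ {g : ℂ → ℂ}, DifferentiableOn ℂ g (ball 0 1) → ∀ s : ℝ, 0 ≤ s → s < 1 →
      HasSum (fun n => ‖coeff g n‖ ^ 2 * s ^ n) (Real.circleAverage (fun z => ‖g z‖ ^ 2) 0 (√s)) := by
    intro g hg s h0 h1
    have := parseval hg (r := √s) (Real.sqrt_nonneg s) (by rw [Real.sqrt_lt' one_pos]; simpa using h1)
    rwa [Real.sq_sqrt h0] at this
  have hcs : ∀ ρ : ℝ, 0 ≤ ρ → ρ < 1 → Summable (fun n => |c n| * ρ ^ n) := by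
    intro ρ h0 h1
    refine Summable.of_nonneg_of_le (fun n => by positivity) (fun n => ?_)
      ((hsum dgp ρ h0 h1).summable.add (hsum dgm ρ h0 h1).summable)
    rw [← add_mul]
    apply mul_le_mul_of_nonneg_right _ (by positivity)
    simp only [hc]
    refine (abs_sub _ _).trans ?_
    rw [abs_of_nonneg (by positivity), abs_of_nonneg (by positivity)]
  have hcs2 : ∀ ρ : ℝ, 0 ≤ ρ → ρ < 1 → Summable (fun n : ℕ => |(n:ℝ) * c n| * ρ ^ n) := by
    intro ρ h0 h1
    obtain ⟨ρ', h3, h4⟩ := exists_between h1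
    have hρ' : 0 < ρ' := lt_of_le_of_lt h0 h3
    have hq : ρ / ρ' < 1 := by rw [div_lt_one hρ']; exact h3
    have hq0 : 0 ≤ ρ / ρ' := by positivity
    obtain ⟨K, hK⟩ := (tendsto_self_mul_const_pow_of_lt_one hq0 hq).bddAbove_range
    refine Summable.of_nonneg_of_le (fun n => by positivity) (fun n => ?_) ((hcs ρ' hρ'.le h4).mul_left K)
    have h5 : (n : ℝ) * ρ ^ n ≤ K * ρ' ^ n := by
      have := hK (mem_range_self n)
      simp only [div_pow] at this
      rw [← mul_div_assoc, div_le_iff₀ (by positivity)] at this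
      exact this
    rw [abs_mul, Nat.abs_cast]
    calc (n:ℝ) * |c n| * ρ ^ n = |c n| * (n * ρ ^ n) := by ring
      _ ≤ |c n| * (K * ρ' ^ n) := mul_le_mul_of_nonneg_left h5 (abs_nonneg _)
      _ = _ := by ring
  set E : ℝ → ℝ := fun s => ∑' n, c n * s ^ n with hE
  set E1 : ℝ → ℝ := fun s => ∑' n, c n * (n * s ^ (n - 1)) with hE1
  set G1 : ℝ → ℝ := fun s => ∑' n : ℕ, (n * c n) * (n * s ^ (n - 1)) with hG1
  have hEval : ∀ s : ℝ, 0 ≤ s → s < 1 → E s = Real.circleAverage (fun z => ‖gp z‖ ^ 2 - ‖gm z‖ ^ 2) 0 (√s) := by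
    intro s h0 h1
    have hs1 : √s < 1 := by rw [Real.sqrt_lt' one_pos]; simpa using h1
    have e1 := (hsum dgp s h0 h1).sub (hsum dgm s h0 h1)
    have e2 : (fun n => ‖coeff gp n‖ ^ 2 * s ^ n - ‖coeff gm n‖ ^ 2 * s ^ n) = (fun n => c n * s ^ n) := by
      funext n; simp only [hc]; ring
    rw [e2] at e1
    simp only [hE]
    rw [e1.tsum_eq, Real.circleAverage_fun_sub]
    · exact circleIntegrable_of_contOn ((dgp.continuousOn.norm).pow 2) (Real.sqrt_nonneg s) hs1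
    · exact circleIntegrable_of_contOn ((dgm.continuousOn.norm).pow 2) (Real.sqrt_nonneg s) hs1
  have hGval : ∀ s : ℝ, 0 ≤ s → s < 1 → G1 s = Real.circleAverage (fun z => ‖deriv gp z‖ ^ 2 - ‖deriv gm z‖ ^ 2) 0 (√s) := by
    intro s h0 h1
    have hs1 : √s < 1 := by rw [Real.sqrt_lt' one_pos]; simpa using h1
    have e1 := (hsum ddgp s h0 h1).sub (hsum ddgm s h0 h1)
    have e2 : (fun n => ‖coeff (deriv gp) n‖ ^ 2 * s ^ n - ‖coeff (deriv gm) n‖ ^ 2 * s ^ n)
        = (fun n : ℕ => (((n + 1 : ℕ) : ℝ) * c (n + 1)) * (((n + 1 : ℕ) : ℝ) * s ^ (n + 1 - 1))) := by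
      funext n
      simp only [hc, coeff_deriv]
      have : ‖((n:ℂ) + 1)‖ = (n:ℝ) + 1 := by
        have h := Complex.norm_natCast (n + 1)
        push_cast at h
        exact h
      rw [norm_mul, norm_mul, this, Nat.add_sub_cancel]
      push_cast
      ring
    rw [e2] at e1
    have e3 : G1 s = ∑' n : ℕ, (((n + 1 : ℕ) : ℝ) * c (n + 1)) * (((n + 1 : ℕ) : ℝ) * s ^ (n + 1 - 1)) := by
      simp only [hG1]
      have hs' : Summable (fun n : ℕ => ((n:ℝ) * c n) * ((n:ℝ) * s ^ (n - 1))) := by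
        rw [← summable_nat_add_iff 1]
        exact e1.summable
      rw [hs'.tsum_eq_zero_add]
      simp
    rw [e3, e1.tsum_eq, Real.circleAverage_fun_sub]
    · exact circleIntegrable_of_contOn ((ddgp.continuousOn.norm).pow 2) (Real.sqrt_nonneg s) hs1
    · exact circleIntegrable_of_contOn ((ddgm.continuousOn.norm).pow 2) (Real.sqrt_nonneg s) hs1
  have hmono : ∀ z ∈ ball (0:ℂ) 1, 0 ≤ ‖gp z‖ ^ 2 - ‖gm z‖ ^ 2 := by
    intro z hz
    rw [ngp, ngm, sub_nonneg]
    apply Real.exp_le_exp.mpr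
    have := mul_pos hl (hpos z hz)
    linarith
  have main := ode_bound (E := E) (E1 := E1) (G1 := G1) (κ := l ^ 2 * B ^ 2 / 4) (by positivity) ?_ ?_ ?_ ?_ (r ^ 2) ⟨by positivity, by nlinarith⟩
  · rw [hEval (r ^ 2) (by positivity) (by nlinarith), Real.sqrt_sq hr0, hEval 0 le_rfl one_pos, Real.sqrt_zero,
      Real.circleAverage_zero] at main
    simp only [ngp, ngm] at main
    exact main
  · intro s hs
    exact hasDerivAt_powser hcs (by rw [abs_of_nonneg hs.1]; exact hs.2)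
  · intro s hs
    have h := hasDerivAt_powser (c := fun n : ℕ => (n:ℝ) * c n) hcs2 (s := s) (by rw [abs_of_nonneg hs.1]; exact hs.2)
    have e : (fun s : ℝ => s * E1 s) = (fun s => ∑' n : ℕ, ((n:ℝ) * c n) * s ^ n) := by
      funext t
      simp only [hE1]
      rw [← tsum_mul_left]
      congr 1
      funext n
      rcases Nat.eq_zero_or_pos n with h0 | h0
      · subst h0; simp
      · obtain ⟨m, rfl⟩ := Nat.exists_eq_succ_of_ne_zero h0.ne'
        simp [pow_succ]; ring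
    rw [e]
    exact h
  · intro s hs
    have hs1 : √s < 1 := by rw [Real.sqrt_lt' one_pos]; simpa using hs.2
    rw [hEval s hs.1 hs.2]
    apply Real.circleAverage_nonneg_of_nonneg
    intro z hz
    have := mem_sphere_abs (Real.sqrt_nonneg s) hz
    exact hmono z (by simp [this, hs1])
  · intro s hs
    have hs1 : √s < 1 := by rw [Real.sqrt_lt' one_pos]; simpa using hs.2
    rw [hEval s hs.1 hs.2, hGval s hs.1 hs.2]
    rw [← smul_eq_mul, ← Real.circleAverage_fun_smul]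
    apply Real.circleAverage_mono
    · exact circleIntegrable_of_contOn (((ddgp.continuousOn.norm).pow 2).sub ((ddgm.continuousOn.norm).pow 2)) (Real.sqrt_nonneg s) hs1
    · exact circleIntegrable_of_contOn ((continuousOn_const (c := (l ^ 2 * B ^ 2 / 4 / (1 - s) ^ 2))).mul (((dgp.continuousOn.norm).pow 2).sub ((dgm.continuousOn.norm).pow 2))) (Real.sqrt_nonneg s) hs1
    · intro z hz
      have hzn := mem_sphere_abs (Real.sqrt_nonneg s) hz
      have hzb : z ∈ ball (0:ℂ) 1 := by simp [hzn, hs1]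
      rw [hdp z hzb, hdm z hzb, smul_eq_mul]
      have h1 := hB z hzb
      rw [hzn, Real.sq_sqrt hs.1] at h1
      have h1s : 0 < 1 - s := by linarith [hs.2]
      have h2 : ‖deriv f z‖ ≤ B / (1 - s) := by rw [le_div_iff₀ h1s]; linarith
      have h3 : ‖deriv f z‖ ^ 2 ≤ (B / (1 - s)) ^ 2 := pow_le_pow_left₀ (norm_nonneg _) h2 2
      have h4 := hmono z hzb
      calc l ^ 2 / 4 * ‖deriv f z‖ ^ 2 * ‖gp z‖ ^ 2 - l ^ 2 / 4 * ‖deriv f z‖ ^ 2 * ‖gm z‖ ^ 2
          = l ^ 2 / 4 * ‖deriv f z‖ ^ 2 * (‖gp z‖ ^ 2 - ‖gm z‖ ^ 2) := by ring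
        _ ≤ l ^ 2 / 4 * (B / (1 - s)) ^ 2 * (‖gp z‖ ^ 2 - ‖gm z‖ ^ 2) := by
          apply mul_le_mul_of_nonneg_right _ h4
          apply mul_le_mul_of_nonneg_left h3 (by positivity)
        _ = _ := by rw [div_pow]; ring

lemma sq_le_four_sinh {x : ℝ} (hx : 0 ≤ x) : x ^ 2 ≤ 2 * (Real.exp x - Real.exp (-x)) := by
  have h1 := Real.quadratic_le_exp_of_nonneg hx
  have h2 : Real.exp (-x) ≤ 1 := Real.exp_le_one_iff.mpr (by linarith)
  nlinarith

/-- second moment of the real part -/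
lemma second_moment {f : ℂ → ℂ} (hf : DifferentiableOn ℂ f (ball 0 1)) (h1 : f 0 = 1)
    {r : ℝ} (hr0 : 0 ≤ r) (hr : r < 1) :
    HasSum (fun n => ‖coeff f (n + 1)‖ ^ 2 * (r ^ 2) ^ (n + 1))
      (2 * Real.circleAverage (fun z => (f z).re ^ 2) 0 r - 2) := by
  have hp := parseval hf hr0 hr
  have h0 : coeff f 0 = 1 := by simp [coeff, h1]
  have hp' := (hasSum_nat_add_iff' 1).mpr hp
  simp only [Finset.range_one, Finset.sum_singleton, h0, norm_one, one_pow, pow_zero, mul_one] at hp'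
  have hsq : DifferentiableOn ℂ (fun z => f z ^ 2) (ball 0 1) := hf.pow 2
  have hmean : Real.circleAverage (fun z => f z ^ 2) 0 r = 1 := by
    rcases hr0.eq_or_lt with h | h
    · subst h; simp [h1]
    · have hd : DiffContOnCl ℂ (fun z => f z ^ 2) (ball 0 |r|) := by
        rw [abs_of_nonneg hr0]
        apply DifferentiableOn.diffContOnCl
        rw [closure_ball _ h.ne']
        exact hsq.mono (closedBall_subset_ball hr)
      rw [hd.circleAverage, h1]; norm_num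
  have hci : CircleIntegrable (fun z => f z ^ 2) 0 r := by
    apply ContinuousOn.circleIntegrable hr0
    apply hsq.continuousOn.mono
    intro z hz
    simp at hz ⊢
    rw [hz]; exact hr
  have hre : Real.circleAverage (fun z => (f z ^ 2).re) 0 r = 1 := by
    have := Complex.reCLM.circleAverage_comp_comm hci
    rw [hmean] at this
    simpa [Function.comp_def] using this
  have hI1 : CircleIntegrable (fun z => ‖f z‖ ^ 2) 0 r :=
    circleIntegrable_of_contOn ((hf.continuousOn.norm).pow 2) hr0 hr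
  have hI2 : CircleIntegrable (fun z => (f z ^ 2).re) 0 r :=
    circleIntegrable_of_contOn (Complex.continuous_re.comp_continuousOn hsq.continuousOn) hr0 hr
  have hid : (fun z => (f z).re ^ 2) = (fun z => (1/2 : ℝ) * (‖f z‖ ^ 2 + (f z ^ 2).re)) := by
    funext z
    rw [← Complex.normSq_eq_norm_sq, Complex.normSq_apply]
    simp [pow_two]; ring
  have : 2 * Real.circleAverage (fun z => (f z).re ^ 2) 0 r - 2 = Real.circleAverage (fun z => ‖f z‖ ^ 2) 0 r - 1 := by
    rw [hid]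
    have h2 : Real.circleAverage (fun z => (1/2 : ℝ) * (‖f z‖ ^ 2 + (f z ^ 2).re)) 0 r
        = (1/2 : ℝ) * Real.circleAverage (fun z => (‖f z‖ ^ 2 + (f z ^ 2).re)) 0 r := by
      rw [← smul_eq_mul, ← Real.circleAverage_fun_smul]; rfl
    rw [h2, Real.circleAverage_fun_add hI1 hI2, hre]; ring
  rw [this]
  exact hp'

lemma moment_bound {f : ℂ → ℂ} (hf : DifferentiableOn ℂ f (ball 0 1)) (h1 : f 0 = 1)
    (hpos : ∀ z ∈ ball (0:ℂ) 1, 0 < (f z).re)
    {B : ℝ} (hB : ∀ z ∈ ball (0:ℂ) 1, (1 - ‖z‖ ^ 2) * ‖deriv f z‖ ≤ B) {L : ℝ} (hL : 1 ≤ L)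
    {r : ℝ} (hr0 : 0 ≤ r) (hr : r < 1) (hLr : 1 - r ^ 2 = Real.exp (-L)) :
    Real.circleAverage (fun z => (f z).re ^ 2) 0 r ≤ 8 * Real.exp (B ^ 2 / 4) * √L := by
  have hL0 : 0 < L := by linarith
  set l : ℝ := 1 / √L with hl
  have hsL : 1 ≤ √L := by rw [Real.one_le_sqrt]; exact hL
  have hl0 : 0 < l := by positivity
  have hl1 : l ≤ 1 := by rw [hl, div_le_one (by positivity)]; exact hsL
  have hg := growth hf hpos hB hl0 hr0 hr
  rw [hLr, h1] at hg
  have hll : l ^ 2 * L = 1 := by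
    rw [hl, div_pow, Real.sq_sqrt hL0.le]; field_simp
  have e1 : (Real.exp (-L)) ^ (l ^ 2 * B ^ 2 / 4) = Real.exp (-(B ^ 2 / 4)) := by
    rw [← Real.exp_mul]
    congr 1
    have : -L * (l ^ 2 * B ^ 2 / 4) = -(l ^ 2 * L) * B ^ 2 / 4 := by ring
    rw [this, hll]; ring
  rw [e1] at hg
  have hexp : Real.exp (l * 1) - Real.exp (-(l * 1)) ≤ 4 * l := by
    have h2 : Real.exp l ≤ 1 + l + l ^ 2 := by
      have := Real.abs_exp_sub_one_sub_id_le (x := l) (by rw [abs_of_pos hl0]; exact hl1)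
      have := (abs_le.mp this).2
      linarith
    have h3 : 1 - l ≤ Real.exp (-l) := by
      have := Real.add_one_le_exp (-l); linarith
    rw [mul_one]
    nlinarith
  have hmul : Real.circleAverage (fun z => Real.exp (l * (f z).re) - Real.exp (-(l * (f z).re))) 0 r ≤ 4 * l * Real.exp (B ^ 2 / 4) := by
    have h4 : Real.exp (-(B ^ 2 / 4)) * Real.exp (B ^ 2 / 4) = 1 := by
      rw [← Real.exp_add]; simp
    have h5 := mul_le_mul_of_nonneg_right (hg.trans (by simpa using hexp)) (Real.exp_pos (B ^ 2 / 4)).le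
    rw [mul_assoc, h4, mul_one] at h5
    exact h5
  have hcon : ContinuousOn (fun z => (f z).re) (ball 0 1) := Complex.continuous_re.comp_continuousOn hf.continuousOn
  have hmono : Real.circleAverage (fun z => (l ^ 2) * (f z).re ^ 2) 0 r ≤
      Real.circleAverage (fun z => 2 * (Real.exp (l * (f z).re) - Real.exp (-(l * (f z).re)))) 0 r := by
    apply Real.circleAverage_mono
    · exact circleIntegrable_of_contOn (continuousOn_const.mul (hcon.pow 2)) hr0 hr
    · exact circleIntegrable_of_contOn (continuousOn_const.mul (((continuousOn_const.mul hcon).rexp).sub (((continuousOn_const.mul hcon).neg).rexp))) hr0 hr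
    · intro z hz
      have hzn := mem_sphere_abs hr0 hz
      have hzb : z ∈ ball (0:ℂ) 1 := by simp [hzn, hr]
      have := sq_le_four_sinh (x := l * (f z).re) (mul_pos hl0 (hpos z hzb)).le
      calc l ^ 2 * (f z).re ^ 2 = (l * (f z).re) ^ 2 := by ring
        _ ≤ _ := this
  have e2 : Real.circleAverage (fun z => (l ^ 2) * (f z).re ^ 2) 0 r = l ^ 2 * Real.circleAverage (fun z => (f z).re ^ 2) 0 r := by
    rw [← smul_eq_mul, ← Real.circleAverage_fun_smul]; rfl
  have e3 : Real.circleAverage (fun z => 2 * (Real.exp (l * (f z).re) - Real.exp (-(l * (f z).re)))) 0 r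
      = 2 * Real.circleAverage (fun z => Real.exp (l * (f z).re) - Real.exp (-(l * (f z).re))) 0 r := by
    rw [← smul_eq_mul, ← Real.circleAverage_fun_smul]; rfl
  rw [e2, e3] at hmono
  have h6 : l ^ 2 * Real.circleAverage (fun z => (f z).re ^ 2) 0 r ≤ 8 * l * Real.exp (B ^ 2 / 4) := by linarith
  have h7 : l * √L = 1 := by rw [hl]; field_simp
  have h8 : L * l ^ 2 = 1 := by linarith
  calc Real.circleAverage (fun z => (f z).re ^ 2) 0 r = L * (l ^ 2 * Real.circleAverage (fun z => (f z).re ^ 2) 0 r) := by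
        rw [← mul_assoc, h8, one_mul]
    _ ≤ L * (8 * l * Real.exp (B ^ 2 / 4)) := mul_le_mul_of_nonneg_left h6 hL0.le
    _ = 8 * Real.exp (B ^ 2 / 4) * ((√L) ^ 2 * l) := by rw [Real.sq_sqrt hL0.le]; ring
    _ = 8 * Real.exp (B ^ 2 / 4) * √L * (l * √L) := by ring
    _ = 8 * Real.exp (B ^ 2 / 4) * √L := by rw [h7, mul_one]

lemma S_eq (f : ℂ → ℂ) (N : ℕ) : S f N = ∑ n ∈ Finset.range N, ‖coeff f (n + 1)‖ ^ 2 := by
  unfold S
  induction N with
  | zero => simp
  | succ k ih => rw [Finset.sum_Icc_succ_top (by omega), ih, Finset.sum_range_succ]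

lemma S_le {f : ℂ → ℂ} (hf : DifferentiableOn ℂ f (ball 0 1)) (h1 : f 0 = 1)
    (hpos : ∀ z ∈ ball (0:ℂ) 1, 0 < (f z).re)
    {B : ℝ} (hB : ∀ z ∈ ball (0:ℂ) 1, (1 - ‖z‖ ^ 2) * ‖deriv f z‖ ≤ B) {N : ℕ} (hN : 3 ≤ N) :
    S f N ≤ 128 * Real.exp (B ^ 2 / 4) * √(Real.log N) := by
  have hN0 : (0:ℝ) < N := by positivity
  have hN3 : (3:ℝ) ≤ N := by exact_mod_cast hN
  have hlog : 1 ≤ Real.log N := by
    rw [Real.le_log_iff_exp_le hN0]
    exact (Real.exp_one_lt_d9.le.trans (by norm_num)).trans hN3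
  set r : ℝ := √(1 - 1 / N) with hr
  have h1N : (1:ℝ) / N ≤ 1 / 3 := one_div_le_one_div_of_le (by norm_num) hN3
  have h1N0 : (0:ℝ) < 1 / N := by positivity
  have hr0 : 0 ≤ r := Real.sqrt_nonneg _
  have hr2 : r ^ 2 = 1 - 1 / N := Real.sq_sqrt (by linarith)
  have hr1 : r < 1 := by
    rw [hr, Real.sqrt_lt' one_pos]; linarith
  have hLr : 1 - r ^ 2 = Real.exp (-Real.log N) := by
    rw [hr2, Real.exp_neg, Real.exp_log hN0]; ring
  have hm := moment_bound hf h1 hpos hB hlog hr0 hr1 hLr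
  have hs := second_moment hf h1 hr0 hr1
  have hle : ∑ n ∈ Finset.range N, ‖coeff f (n + 1)‖ ^ 2 * (r ^ 2) ^ (n + 1) ≤ 2 * Real.circleAverage (fun z => (f z).re ^ 2) 0 r - 2 :=
    sum_le_hasSum _ (fun n _ => by positivity) hs
  have hSr : S f N = ∑ n ∈ Finset.range N, ‖coeff f (n + 1)‖ ^ 2 := S_eq f N
  have hlow : ∀ n ∈ Finset.range N, ‖coeff f (n + 1)‖ ^ 2 ≤ 8 * (‖coeff f (n + 1)‖ ^ 2 * (r ^ 2) ^ (n + 1)) := by
    intro n hn
    have hn' : n + 1 ≤ N := by simpa [Nat.succ_le_iff] using hn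
    have hp : (1/8 : ℝ) ≤ (r ^ 2) ^ (n + 1) := by
      have h3 : (r ^ 2) ^ N ≤ (r ^ 2) ^ (n + 1) := by
        apply pow_le_pow_of_le_one (by positivity) _ hn'
        rw [hr2]; linarith
      refine le_trans ?_ h3
      rw [hr2]
      have hx : (0:ℝ) < 1 - 1 / N := by linarith
      have h4 := Real.one_sub_inv_le_log_of_pos hx
      have h5 : Real.exp (-2) ≤ (1 - 1 / (N:ℝ)) ^ N := by
        rw [← Real.exp_log (pow_pos hx N), Real.log_pow]
        apply Real.exp_le_exp.mpr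
        have h6 : 1 - (1 - 1 / (N:ℝ))⁻¹ = - (1 / (N - 1)) := by
          have : (N:ℝ) - 1 ≠ 0 := by linarith
          have : (1 - 1 / (N:ℝ)) = (N - 1) / N := by field_simp
          rw [this, inv_div]; field_simp; ring
        rw [h6] at h4
        have h7 : (N:ℝ) * (1 / (N - 1)) ≤ 2 := by
          rw [mul_one_div, div_le_iff₀ (by linarith)]; linarith
        nlinarith
      refine le_trans ?_ h5
      rw [Real.exp_neg, one_div]
      apply inv_anti₀ (Real.exp_pos _)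
      have : Real.exp 2 = Real.exp 1 * Real.exp 1 := by rw [← Real.exp_add]; norm_num
      rw [this]
      have := Real.exp_one_lt_d9
      have := Real.exp_pos 1
      nlinarith
    have := mul_le_mul_of_nonneg_left hp (by positivity : (0:ℝ) ≤ ‖coeff f (n + 1)‖ ^ 2)
    linarith
  calc S f N = ∑ n ∈ Finset.range N, ‖coeff f (n + 1)‖ ^ 2 := hSr
    _ ≤ ∑ n ∈ Finset.range N, 8 * (‖coeff f (n + 1)‖ ^ 2 * (r ^ 2) ^ (n + 1)) := Finset.sum_le_sum hlow
    _ = 8 * ∑ n ∈ Finset.range N, (‖coeff f (n + 1)‖ ^ 2 * (r ^ 2) ^ (n + 1)) := by rw [Finset.mul_sum]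
    _ ≤ 8 * (2 * (8 * Real.exp (B ^ 2 / 4) * √(Real.log N)) - 2) := by linarith
    _ ≤ _ := by linarith

/-- value update: digits 0 and 3 keep the value, digit 1 adds one, digit 2 subtracts one;
the value 0 is absorbing. -/
def upd (v : ℕ) (d : ℤ) : ℕ := if v = 0 then 0 else if d = 1 then v + 1 else if d = 2 then v - 1 else v

/-- the absorbed walk on the 4-adic intervals `[i/4^k, (i+1)/4^k)` -/
def m : ℕ → ℤ → ℕ
  | 0, _ => 1
  | k + 1, i => upd (m k (i / 4)) (i % 4)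

noncomputable def M (k : ℕ) (x : ℝ) : ℝ := (m k ⌊(4:ℝ) ^ k * x⌋ : ℝ)

lemma floor_four (y : ℝ) : ⌊4 * y⌋ / 4 = ⌊y⌋ := by
  have h1 := Int.floor_le y
  have h2 := Int.lt_floor_add_one y
  have h3 : (4 * ⌊y⌋ : ℤ) ≤ ⌊4 * y⌋ := by
    rw [Int.le_floor]; push_cast; linarith
  have h4 : ⌊4 * y⌋ < 4 * ⌊y⌋ + 4 := by
    rw [Int.floor_lt]; push_cast; linarith
  omega

lemma M_succ (k : ℕ) (x : ℝ) : M (k + 1) x = (upd (m k ⌊(4:ℝ) ^ k * x⌋) (⌊(4:ℝ) ^ (k + 1) * x⌋ % 4) : ℝ) := by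
  unfold M
  have : ⌊(4:ℝ) ^ (k + 1) * x⌋ / 4 = ⌊(4:ℝ) ^ k * x⌋ := by
    rw [pow_succ, mul_comm ((4:ℝ) ^ k) 4, mul_assoc, floor_four]
  rw [← this]
  rfl

lemma m_periodic (k : ℕ) : ∀ i : ℤ, m k (i + 4 ^ k) = m k i := by
  induction k with
  | zero => intro i; rfl
  | succ k ih =>
    intro i
    have h1 : (i + 4 ^ (k + 1)) / 4 = i / 4 + 4 ^ k := by
      rw [pow_succ]; omega
    have h2 : (i + 4 ^ (k + 1)) % 4 = i % 4 := by
      rw [pow_succ]; omega
    simp only [m]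
    rw [h1, h2, ih]

lemma M_periodic (k : ℕ) : Function.Periodic (M k) 1 := by
  intro x
  unfold M
  have : ⌊(4:ℝ) ^ k * (x + 1)⌋ = ⌊(4:ℝ) ^ k * x⌋ + 4 ^ k := by
    rw [mul_add, mul_one]
    have : ((4:ℝ) ^ k) = (((4 ^ k : ℤ)) : ℝ) := by push_cast; rfl
    nth_rw 2 [this]
    rw [Int.floor_add_intCast]
  rw [this, m_periodic]

lemma measurable_M (k : ℕ) : Measurable (M k) := by
  unfold M
  have h1 : Measurable (fun x : ℝ => ⌊(4:ℝ) ^ k * x⌋) := Int.measurable_floor.comp (measurable_const.mul measurable_id)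
  have h2 : Measurable (fun i : ℤ => (m k i : ℝ)) := measurable_from_top
  exact h2.comp h1

lemma M_nonneg (k : ℕ) (x : ℝ) : 0 ≤ M k x := Nat.cast_nonneg _

lemma m_le (k : ℕ) : ∀ i, m k i ≤ k + 1 := by
  induction k with
  | zero => intro i; simp [m]
  | succ k ih =>
    intro i
    have := ih (i / 4)
    simp only [m, upd]
    split_ifs <;> omega

lemma M_le (k : ℕ) (x : ℝ) : M k x ≤ k + 1 := by
  unfold M
  exact_mod_cast m_le k _

lemma sum_four {β : Type*} [AddCommMonoid β] (g : ℕ → β) (n : ℕ) :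
    ∑ i ∈ Finset.range (4 * n), g i = ∑ q ∈ Finset.range n, (g (4 * q) + g (4 * q + 1) + g (4 * q + 2) + g (4 * q + 3)) := by
  induction n with
  | zero => simp
  | succ n ih =>
    rw [show 4 * (n + 1) = 4 * n + 1 + 1 + 1 + 1 by ring, Finset.sum_range_succ, Finset.sum_range_succ,
      Finset.sum_range_succ, Finset.sum_range_succ, Finset.sum_range_succ, ih]
    simp only [add_assoc]

lemma m_child (k : ℕ) (q : ℤ) (d : ℤ) (h0 : 0 ≤ d) (h4 : d < 4) : m (k + 1) (4 * q + d) = upd (m k q) d := by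
  simp only [m]
  have h1 : (4 * q + d) / 4 = q := by omega
  have h2 : (4 * q + d) % 4 = d := by omega
  rw [h1, h2]

lemma upd_sum (v : ℕ) : upd v 0 + upd v 1 + upd v 2 + upd v 3 = 4 * v := by
  unfold upd
  rcases Nat.eq_zero_or_pos v with h | h
  · simp [h]
  · simp [h.ne']; omega

lemma upd_sq (v : ℕ) : (upd v 0 : ℝ) ^ 2 + (upd v 1 : ℝ) ^ 2 + (upd v 2 : ℝ) ^ 2 + (upd v 3 : ℝ) ^ 2 = 4 * (v:ℝ) ^ 2 + 2 * (if v = 0 then 0 else 1) := by
  unfold upd
  rcases Nat.eq_zero_or_pos v with h | h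
  · simp [h]
  · simp [h.ne', Nat.cast_sub h]; ring

noncomputable def V (k : ℕ) : ℝ := (∑ i ∈ Finset.range (4 ^ k), (m k i : ℝ) ^ 2) / 4 ^ k
noncomputable def Q (k : ℕ) : ℝ := (∑ i ∈ Finset.range (4 ^ k), (if m k i = 0 then (0:ℝ) else 1)) / 4 ^ k

lemma sum_m (k : ℕ) : ∑ i ∈ Finset.range (4 ^ k), (m k i : ℝ) = 4 ^ k := by
  induction k with
  | zero => simp [m]
  | succ k ih =>
    rw [pow_succ, mul_comm, sum_four]
    have : ∀ q ∈ Finset.range (4 ^ k), ((m (k+1) ((4 * q : ℕ) : ℤ) : ℝ) + (m (k+1) ((4 * q + 1 : ℕ) : ℤ) : ℝ) + (m (k+1) ((4 * q + 2 : ℕ) : ℤ) : ℝ) + (m (k+1) ((4 * q + 3 : ℕ) : ℤ) : ℝ)) = 4 * (m k q : ℝ) := by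
      intro q _
      have e0 : m (k+1) ((4 * q : ℕ) : ℤ) = upd (m k q) 0 := by
        have := m_child k q 0 (by norm_num) (by norm_num)
        push_cast; simpa using this
      have e1 : m (k+1) ((4 * q + 1 : ℕ) : ℤ) = upd (m k q) 1 := by
        have := m_child k q 1 (by norm_num) (by norm_num)
        push_cast; simpa using this
      have e2 : m (k+1) ((4 * q + 2 : ℕ) : ℤ) = upd (m k q) 2 := by
        have := m_child k q 2 (by norm_num) (by norm_num)
        push_cast; simpa using this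
      have e3 : m (k+1) ((4 * q + 3 : ℕ) : ℤ) = upd (m k q) 3 := by
        have := m_child k q 3 (by norm_num) (by norm_num)
        push_cast; simpa using this
      rw [e0, e1, e2, e3]
      exact_mod_cast upd_sum (m k q)
    rw [Finset.sum_congr rfl this, ← Finset.mul_sum, ih]
    ring

lemma V_succ (k : ℕ) : V (k + 1) = V k + Q k / 2 := by
  unfold V Q
  rw [pow_succ, mul_comm (4 ^ k) 4, sum_four]
  have : ∀ q ∈ Finset.range (4 ^ k), ((m (k+1) ((4 * q : ℕ) : ℤ) : ℝ) ^ 2 + (m (k+1) ((4 * q + 1 : ℕ) : ℤ) : ℝ) ^ 2 + (m (k+1) ((4 * q + 2 : ℕ) : ℤ) : ℝ) ^ 2 + (m (k+1) ((4 * q + 3 : ℕ) : ℤ) : ℝ) ^ 2) = 4 * (m k q : ℝ) ^ 2 + 2 * (if m k q = 0 then 0 else 1) := by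
    intro q _
    have e0 : m (k+1) ((4 * q : ℕ) : ℤ) = upd (m k q) 0 := by
      have := m_child k q 0 (by norm_num) (by norm_num)
      push_cast; simpa using this
    have e1 : m (k+1) ((4 * q + 1 : ℕ) : ℤ) = upd (m k q) 1 := by
      have := m_child k q 1 (by norm_num) (by norm_num)
      push_cast; simpa using this
    have e2 : m (k+1) ((4 * q + 2 : ℕ) : ℤ) = upd (m k q) 2 := by
      have := m_child k q 2 (by norm_num) (by norm_num)
      push_cast; simpa using this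
    have e3 : m (k+1) ((4 * q + 3 : ℕ) : ℤ) = upd (m k q) 3 := by
      have := m_child k q 3 (by norm_num) (by norm_num)
      push_cast; simpa using this
    rw [e0, e1, e2, e3]
    exact upd_sq (m k q)
  rw [Finset.sum_congr rfl this, Finset.sum_add_distrib, ← Finset.mul_sum, ← Finset.mul_sum]
  rw [pow_succ]
  field_simp
  ring

lemma V_mul_Q (k : ℕ) : 1 ≤ V k * Q k := by
  have hcs := Finset.sum_mul_sq_le_sq_mul_sq (Finset.range (4 ^ k)) (fun i => (m k i : ℝ)) (fun i => if m k (i:ℤ) = 0 then (0:ℝ) else 1)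
  have e1 : ∑ i ∈ Finset.range (4 ^ k), (m k i : ℝ) * (if m k (i:ℤ) = 0 then (0:ℝ) else 1) = 4 ^ k := by
    rw [← sum_m k]
    apply Finset.sum_congr rfl
    intro i _
    split_ifs with h <;> simp [h]
  have e2 : ∑ i ∈ Finset.range (4 ^ k), (if m k (i:ℤ) = 0 then (0:ℝ) else 1) ^ 2 = ∑ i ∈ Finset.range (4 ^ k), (if m k (i:ℤ) = 0 then (0:ℝ) else 1) := by
    apply Finset.sum_congr rfl
    intro i _
    split_ifs <;> simp
  rw [e1, e2] at hcs
  unfold V Q
  rw [div_mul_div_comm, le_div_iff₀ (by positivity), one_mul]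
  calc (4:ℝ) ^ k * 4 ^ k = (4 ^ k) ^ 2 := by ring
    _ ≤ _ := hcs

lemma V_zero : V 0 = 1 := by simp [V, m]

lemma V_pos (k : ℕ) : 0 < V k := by
  have h := V_mul_Q k
  have h1 : 0 ≤ V k := by unfold V; positivity
  rcases h1.eq_or_lt with h2 | h2
  · rw [← h2] at h; simp at h; linarith
  · exact h2

lemma V_sq_ge (k : ℕ) : (k : ℝ) + 1 ≤ V k ^ 2 := by
  induction k with
  | zero => simp [V_zero]
  | succ k ih =>
    rw [V_succ]
    have h1 := V_mul_Q k
    have h2 := V_pos k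
    push_cast
    nlinarith [sq_nonneg (Q k)]

lemma V_ge (k : ℕ) : √((k : ℝ) + 1) ≤ V k := by
  rw [← Real.sqrt_sq (V_pos k).le]
  exact Real.sqrt_le_sqrt (V_sq_ge k)

lemma M_const {k : ℕ} {i : ℤ} {x : ℝ} (h1 : (i:ℝ) / 4 ^ k ≤ x) (h2 : x < ((i:ℝ) + 1) / 4 ^ k) : M k x = m k i := by
  unfold M
  have h4 : (0:ℝ) < 4 ^ k := by positivity
  have : ⌊(4:ℝ) ^ k * x⌋ = i := by
    rw [Int.floor_eq_iff]
    rw [div_le_iff₀ h4] at h1
    rw [lt_div_iff₀ h4] at h2
    constructor <;> linarith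
  rw [this]

lemma ii_of_bdd {E : Type*} [NormedAddCommGroup E] {g : ℝ → E} (hm : AEStronglyMeasurable g volume) (C : ℝ)
    (h : ∀ x, ‖g x‖ ≤ C) (a b : ℝ) : IntervalIntegrable g volume a b := by
  rw [intervalIntegrable_iff]
  exact Measure.integrableOn_of_bounded (by simp [uIoc]) hm (Eventually.of_forall h)

lemma intervalIntegrable_M (k : ℕ) (a b : ℝ) : IntervalIntegrable (M k) volume a b := by
  apply ii_of_bdd (measurable_M k).aestronglyMeasurable ((k:ℝ) + 1)
  intro x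
  rw [Real.norm_of_nonneg (M_nonneg k x)]
  exact M_le k x

lemma integral_M_self (k : ℕ) (i : ℤ) : ∫ x in ((i:ℝ) / 4 ^ k)..(((i:ℝ) + 1) / 4 ^ k), M k x = (m k i : ℝ) / 4 ^ k := by
  have h4 : (0:ℝ) < 4 ^ k := by positivity
  have hle : (i:ℝ) / 4 ^ k ≤ ((i:ℝ) + 1) / 4 ^ k := by
    apply div_le_div_of_nonneg_right _ h4.le; linarith
  have : ∫ x in ((i:ℝ) / 4 ^ k)..(((i:ℝ) + 1) / 4 ^ k), M k x = ∫ x in ((i:ℝ) / 4 ^ k)..(((i:ℝ) + 1) / 4 ^ k), (m k i : ℝ) := by
    apply intervalIntegral.integral_congr_Ioo_of_le hle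
    intro x hx
    exact M_const hx.1.le hx.2
  rw [this, intervalIntegral.integral_const, smul_eq_mul]
  field_simp
  ring

lemma integral_M (n : ℕ) : ∀ (k : ℕ) (i : ℤ), ∫ x in ((i:ℝ) / 4 ^ k)..(((i:ℝ) + 1) / 4 ^ k), M (k + n) x = (m k i : ℝ) / 4 ^ k := by
  induction n with
  | zero => intro k i; exact integral_M_self k i
  | succ n ih =>
    intro k i
    have h4 : (0:ℝ) < 4 ^ k := by positivity
    have h := fun d : ℤ => ih (k + 1) (4 * i + d)
    rw [show k + (n + 1) = (k + 1) + n by ring]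
    have p0 : ((i:ℝ)) / 4 ^ k = (((4 * i + 0 : ℤ) : ℝ)) / 4 ^ (k + 1) := by push_cast; rw [pow_succ]; field_simp; ring
    have p1 : (((4 * i + 0 : ℤ) : ℝ) + 1) / 4 ^ (k + 1) = (((4 * i + 1 : ℤ) : ℝ)) / 4 ^ (k + 1) := by push_cast; ring
    have p2 : (((4 * i + 1 : ℤ) : ℝ) + 1) / 4 ^ (k + 1) = (((4 * i + 2 : ℤ) : ℝ)) / 4 ^ (k + 1) := by push_cast; ring
    have p3 : (((4 * i + 2 : ℤ) : ℝ) + 1) / 4 ^ (k + 1) = (((4 * i + 3 : ℤ) : ℝ)) / 4 ^ (k + 1) := by push_cast; ring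
    have p4 : (((4 * i + 3 : ℤ) : ℝ) + 1) / 4 ^ (k + 1) = ((i:ℝ) + 1) / 4 ^ k := by push_cast; rw [pow_succ]; field_simp; ring
    have h0 := h 0
    have h1 := h 1
    have h2 := h 2
    have h3 := h 3
    rw [p1] at h0
    rw [p2] at h1
    rw [p3] at h2
    rw [p0, ← p4, ← intervalIntegral.integral_add_adjacent_intervals (b := (((4 * i + 3 : ℤ) : ℝ)) / 4 ^ (k + 1)) (intervalIntegrable_M _ _ _) (intervalIntegrable_M _ _ _),
      ← intervalIntegral.integral_add_adjacent_intervals (b := (((4 * i + 2 : ℤ) : ℝ)) / 4 ^ (k + 1)) (intervalIntegrable_M _ _ _) (intervalIntegrable_M _ _ _),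
      ← intervalIntegral.integral_add_adjacent_intervals (b := (((4 * i + 1 : ℤ) : ℝ)) / 4 ^ (k + 1)) (intervalIntegrable_M _ _ _) (intervalIntegrable_M _ _ _),
      h0, h1, h2, h3]
    rw [m_child k i 0 (by norm_num) (by norm_num), m_child k i 1 (by norm_num) (by norm_num),
      m_child k i 2 (by norm_num) (by norm_num), m_child k i 3 (by norm_num) (by norm_num)]
    have := upd_sum (m k i)
    have h5 : (upd (m k i) 0 : ℝ) + upd (m k i) 1 + upd (m k i) 2 + upd (m k i) 3 = 4 * m k i := by exact_mod_cast this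
    rw [pow_succ]
    field_simp
    linarith

lemma integral_M_unit (k : ℕ) : ∫ x in (0:ℝ)..1, M k x = 1 := by
  have := integral_M k 0 0
  simpa [m] using this

lemma integral_M_sq (k : ℕ) : ∫ x in (0:ℝ)..1, (M k x) ^ 2 = V k := by
  have h4 : (0:ℝ) < 4 ^ k := by positivity
  have hint : ∀ a b : ℝ, IntervalIntegrable (fun x => M k x ^ 2) volume a b := by
    intro a b
    apply ii_of_bdd ((measurable_M k).pow_const 2).aestronglyMeasurable (((k:ℝ) + 1) ^ 2)
    intro x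
    rw [Real.norm_of_nonneg (by positivity)]
    exact pow_le_pow_left₀ (M_nonneg k x) (M_le k x) 2
  have h := intervalIntegral.sum_integral_adjacent_intervals (f := fun x => M k x ^ 2) (μ := volume) (a := fun i : ℕ => (i:ℝ) / 4 ^ k) (n := 4 ^ k) (fun i _ => hint _ _)
  have e : ((4 ^ k : ℕ) : ℝ) / 4 ^ k = 1 := by push_cast; exact div_self h4.ne'
  simp only [Nat.cast_zero, zero_div] at h
  rw [e] at h
  rw [← h]
  unfold V
  rw [Finset.sum_div]
  apply Finset.sum_congr rfl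
  intro i _
  have hle : (i:ℝ) / 4 ^ k ≤ (((i + 1 : ℕ)):ℝ) / 4 ^ k := by
    apply div_le_div_of_nonneg_right _ h4.le; push_cast; linarith
  have : ∫ x in ((i:ℝ) / 4 ^ k)..(((i + 1 : ℕ):ℝ) / 4 ^ k), M k x ^ 2 = ∫ x in ((i:ℝ) / 4 ^ k)..(((i + 1 : ℕ):ℝ) / 4 ^ k), (m k i : ℝ) ^ 2 := by
    apply intervalIntegral.integral_congr_Ioo_of_le hle
    intro x hx
    have := M_const (k := k) (i := (i:ℤ)) (x := x) (by have := hx.1.le; rwa [Int.cast_natCast]) (by have := hx.2; push_cast at this ⊢; exact this)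
    simp only [this]
  rw [this, intervalIntegral.integral_const, smul_eq_mul]
  push_cast
  field_simp
  ring

noncomputable def e (x : ℝ) : ℂ := cexp (((2 * Real.pi * x : ℝ) : ℂ) * I)

lemma norm_e (x : ℝ) : ‖e x‖ = 1 := by
  unfold e; exact Complex.norm_exp_ofReal_mul_I _

lemma continuous_e : Continuous e := by unfold e; fun_prop

lemma e_periodic : Function.Periodic e 1 := by
  intro x
  unfold e
  have : (((2 * Real.pi * (x + 1) : ℝ) : ℂ) * I) = (((2 * Real.pi * x : ℝ) : ℂ) * I) + 2 * Real.pi * I := by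
    push_cast; ring
  rw [this, Complex.exp_periodic]

lemma e_add (x y : ℝ) : e (x + y) = e x * e y := by
  unfold e; rw [← Complex.exp_add]; congr 1; push_cast; ring

lemma norm_e_sub (x y : ℝ) : ‖e x - e y‖ = 2 * |Real.sin (Real.pi * (x - y))| := by
  have h1 : e x = e y * e (x - y) := by rw [← e_add]; congr 1; ring
  have h2 : e x - e y = e y * (e (x - y) - 1) := by rw [h1]; ring
  rw [h2, norm_mul, norm_e, one_mul]
  have h3 : e (x - y) = cexp (I * ((2 * Real.pi * (x - y) : ℝ) : ℂ)) := by unfold e; rw [mul_comm]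
  rw [h3, Complex.norm_exp_I_mul_ofReal_sub_one, norm_mul, Real.norm_eq_abs, Real.norm_eq_abs, abs_of_pos (by norm_num : (0:ℝ) < 2)]
  congr 3; ring

lemma norm_e_sub_le (x y : ℝ) : ‖e x - e y‖ ≤ 2 * Real.pi * |x - y| := by
  rw [norm_e_sub]
  have := Real.abs_sin_le_abs (x := Real.pi * (x - y))
  rw [abs_mul, abs_of_pos Real.pi_pos] at this
  linarith

lemma norm_e_sub_ge {x y : ℝ} (h : |x - y| ≤ 1 / 2) : 4 * |x - y| ≤ ‖e x - e y‖ := by
  rw [norm_e_sub]
  have h1 : |Real.sin (Real.pi * (x - y))| = Real.sin (Real.pi * |x - y|) := by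
    rw [Real.abs_sin_eq_sin_abs_of_abs_le_pi]
    · rw [abs_mul, abs_of_pos Real.pi_pos]
    · rw [abs_mul, abs_of_pos Real.pi_pos]
      nlinarith [Real.pi_pos]
  rw [h1]
  have h2 := Real.mul_le_sin (x := Real.pi * |x - y|) (by positivity) (by nlinarith [Real.pi_pos])
  have h3 : 2 / Real.pi * (Real.pi * |x - y|) = 2 * |x - y| := by
    field_simp
  linarith

lemma integral_e (F : ℂ → ℂ) : ∫ x in (0:ℝ)..1, F (e x) = Real.circleAverage F 0 1 := by
  unfold Real.circleAverage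
  have h := intervalIntegral.integral_comp_mul_left (a := 0) (b := 1) (fun θ => F (circleMap 0 1 θ)) (c := 2 * Real.pi) (by positivity)
  simp only [mul_zero, mul_one] at h
  rw [← h]
  apply intervalIntegral.integral_congr
  intro x _
  simp [circleMap, e]

lemma integral_e_neg (F : ℂ → ℂ) : ∫ x in (0:ℝ)..1, F (e (-x)) = Real.circleAverage F 0 1 := by
  rw [← integral_e]
  have h1 := intervalIntegral.integral_comp_neg (fun x => F (e x)) (a := 0) (b := 1)
  rw [h1]
  have hp : Function.Periodic (fun x => F (e x)) 1 := fun x => by simp only [e_periodic x]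
  have := hp.intervalIntegral_add_eq (-1) 0
  simpa using this

noncomputable def H (z : ℂ) (x : ℝ) : ℂ := (e x + z) / (e x - z)
noncomputable def K (z : ℂ) (x : ℝ) : ℂ := 2 * e x / (e x - z) ^ 2

lemma e_mul_neg (x : ℝ) : e x * e (-x) = 1 := by
  rw [← e_add]; simp [e]

lemma sub_ne {z : ℂ} (hz : ‖z‖ < 1) (x : ℝ) : e x - z ≠ 0 := by
  intro h
  have : e x = z := sub_eq_zero.mp h
  rw [← this, norm_e] at hz
  exact lt_irrefl _ hz

lemma norm_sub_ge {z : ℂ} (hz : ‖z‖ < 1) (x : ℝ) : 1 - ‖z‖ ≤ ‖e x - z‖ := by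
  have := norm_sub_norm_le (e x) z
  rwa [norm_e] at this

lemma one_sub_ne {z w : ℂ} (hz : ‖z‖ < 1) (hw : ‖w‖ ≤ 1) : 1 - z * w ≠ 0 := by
  intro h
  have : z * w = 1 := (sub_eq_zero.mp h).symm
  have h2 : ‖z * w‖ = 1 := by rw [this]; simp
  rw [norm_mul] at h2
  nlinarith [norm_nonneg z, norm_nonneg w]

lemma integral_H {z : ℂ} (hz : ‖z‖ < 1) : ∫ x in (0:ℝ)..1, H z x = 1 := by
  have h1 : ∀ x, H z x = (fun w : ℂ => (1 + z * w) / (1 - z * w)) (e (-x)) := by
    intro x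
    have a := e_mul_neg x
    have b := sub_ne hz x
    have c : 1 - z * e (-x) ≠ 0 := one_sub_ne hz (by rw [norm_e])
    simp only [H]
    rw [div_eq_div_iff b c]
    linear_combination (-2 * z) * a
  simp_rw [h1]
  rw [integral_e_neg (fun w : ℂ => (1 + z * w) / (1 - z * w))]
  have hd : DiffContOnCl ℂ (fun w : ℂ => (1 + z * w) / (1 - z * w)) (ball 0 |1|) := by
    rw [abs_one]
    apply DifferentiableOn.diffContOnCl
    rw [closure_ball _ one_ne_zero]
    intro w hw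
    have hw' : ‖w‖ ≤ 1 := by simpa using hw
    apply DifferentiableAt.differentiableWithinAt
    have := one_sub_ne hz hw'
    fun_prop (disch := assumption)
  rw [hd.circleAverage]
  simp

lemma integral_K {z : ℂ} (hz : ‖z‖ < 1) : ∫ x in (0:ℝ)..1, K z x = 0 := by
  have h1 : ∀ x, K z x = (fun w : ℂ => 2 * w / (1 - z * w) ^ 2) (e (-x)) := by
    intro x
    have a := e_mul_neg x
    have b := sub_ne hz x
    have c : 1 - z * e (-x) ≠ 0 := one_sub_ne hz (by rw [norm_e])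
    simp only [K]
    have hx : e x - z = e x * (1 - z * e (-x)) := by linear_combination z * a
    have hx0 : e x ≠ 0 := by intro h; rw [h] at a; simp at a
    rw [hx, div_eq_div_iff (pow_ne_zero 2 (mul_ne_zero hx0 c)) (pow_ne_zero 2 c)]
    have : e x * e (-x) * e x = e x := by rw [a, one_mul]
    linear_combination (-2 * (1 - z * e (-x)) ^ 2) * this
  simp_rw [h1]
  rw [integral_e_neg (fun w : ℂ => 2 * w / (1 - z * w) ^ 2)]
  have hd : DiffContOnCl ℂ (fun w : ℂ => 2 * w / (1 - z * w) ^ 2) (ball 0 |1|) := by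
    rw [abs_one]
    apply DifferentiableOn.diffContOnCl
    rw [closure_ball _ one_ne_zero]
    intro w hw
    have hw' : ‖w‖ ≤ 1 := by simpa using hw
    apply DifferentiableAt.differentiableWithinAt
    have := pow_ne_zero 2 (one_sub_ne hz hw')
    fun_prop (disch := assumption)
  rw [hd.circleAverage]
  simp

lemma continuous_H {z : ℂ} (hz : ‖z‖ < 1) : Continuous (H z) := by
  unfold H
  exact (continuous_e.add continuous_const).div (continuous_e.sub continuous_const) (sub_ne hz)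

lemma continuous_K {z : ℂ} (hz : ‖z‖ < 1) : Continuous (K z) := by
  unfold K
  exact (continuous_const.mul continuous_e).div ((continuous_e.sub continuous_const).pow 2) (fun x => pow_ne_zero 2 (sub_ne hz x))

lemma re_H {z : ℂ} (hz : ‖z‖ < 1) (x : ℝ) : (H z x).re = (1 - ‖z‖ ^ 2) / ‖e x - z‖ ^ 2 := by
  unfold H
  have h1 : (e x + z) / (e x - z) = ((e x + z) * (starRingEnd ℂ) (e x - z)) / ((‖e x - z‖ ^ 2 : ℝ) : ℂ) := by
    have := sub_ne hz x
    rw [← Complex.normSq_eq_norm_sq, ← Complex.mul_conj]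
    have h2 : (starRingEnd ℂ) (e x - z) ≠ 0 := (map_ne_zero _).mpr this
    rw [mul_div_mul_right _ _ h2]
  rw [h1, Complex.div_ofReal_re]
  congr 1
  have h2 : (e x).re * (e x).re + (e x).im * (e x).im = 1 := by
    have := norm_e x
    have h3 : ‖e x‖ ^ 2 = 1 := by rw [this]; norm_num
    rw [← Complex.normSq_eq_norm_sq, Complex.normSq_apply] at h3
    exact h3
  rw [← Complex.normSq_eq_norm_sq, Complex.normSq_apply]
  simp
  linear_combination h2

lemma integral_inv_sq {z : ℂ} (hz : ‖z‖ < 1) : ∫ x in (0:ℝ)..1, 1 / ‖e x - z‖ ^ 2 = 1 / (1 - ‖z‖ ^ 2) := by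
  have h0 : 0 < 1 - ‖z‖ ^ 2 := by nlinarith [norm_nonneg z]
  have h1 : ∫ x in (0:ℝ)..1, (H z x).re = 1 := by
    have := Complex.reCLM.intervalIntegral_comp_comm (μ := volume) ((continuous_H hz).intervalIntegrable 0 1)
    simp only [Complex.reCLM_apply] at this
    rw [this, integral_H hz]; simp
  have h2 : ∀ x, 1 / ‖e x - z‖ ^ 2 = (1 / (1 - ‖z‖ ^ 2)) * (H z x).re := by
    intro x
    rw [re_H hz]
    field_simp
  simp_rw [h2]
  rw [intervalIntegral.integral_const_mul, h1, mul_one]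

lemma norm_H_sub {z : ℂ} (hz : ‖z‖ < 1) (x y : ℝ) :
    ‖H z x - H z y‖ ≤ 2 * Real.pi * |x - y| * (1 / ‖e x - z‖ ^ 2 + 1 / ‖e y - z‖ ^ 2) := by
  have hx := sub_ne hz x
  have hy := sub_ne hz y
  have h1 : H z x - H z y = 2 * z * (e y - e x) / ((e x - z) * (e y - z)) := by
    unfold H; field_simp; ring
  have ha : 0 < ‖e x - z‖ := norm_pos_iff.mpr hx
  have hb : 0 < ‖e y - z‖ := norm_pos_iff.mpr hy
  rw [h1, norm_div, norm_mul, norm_mul, norm_mul]
  have h2 : ‖e y - e x‖ ≤ 2 * Real.pi * |x - y| := by rw [norm_sub_rev]; exact norm_e_sub_le x y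
  have h3 : ‖(2:ℂ)‖ * ‖z‖ * ‖e y - e x‖ ≤ 2 * (2 * Real.pi * |x - y|) := by
    have : ‖(2:ℂ)‖ = 2 := by simp
    rw [this]
    have : ‖z‖ * ‖e y - e x‖ ≤ 1 * (2 * Real.pi * |x - y|) :=
      mul_le_mul hz.le h2 (norm_nonneg _) (by norm_num)
    nlinarith
  have h4 : 2 * (1 / (‖e x - z‖ * ‖e y - z‖)) ≤ 1 / ‖e x - z‖ ^ 2 + 1 / ‖e y - z‖ ^ 2 := by
    have := sq_nonneg (1 / ‖e x - z‖ - 1 / ‖e y - z‖)
    have e1 : (1 / ‖e x - z‖ - 1 / ‖e y - z‖) ^ 2 = 1 / ‖e x - z‖ ^ 2 + 1 / ‖e y - z‖ ^ 2 - 2 * (1 / (‖e x - z‖ * ‖e y - z‖)) := by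
      field_simp; ring
    linarith
  calc ‖(2:ℂ)‖ * ‖z‖ * ‖e y - e x‖ / (‖e x - z‖ * ‖e y - z‖) ≤ 2 * (2 * Real.pi * |x - y|) / (‖e x - z‖ * ‖e y - z‖) := by
        gcongr
    _ = 2 * Real.pi * |x - y| * (2 * (1 / (‖e x - z‖ * ‖e y - z‖))) := by ring
    _ ≤ _ := by
        apply mul_le_mul_of_nonneg_left h4
        have := Real.pi_pos
        positivity

lemma norm_K_sub {z : ℂ} (hz : ‖z‖ < 1) (x y : ℝ) :
    ‖K z x - K z y‖ ≤ 4 * Real.pi * |x - y| / (1 - ‖z‖) * (1 / ‖e x - z‖ ^ 2 + 1 / ‖e y - z‖ ^ 2) := by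
  have hx := sub_ne hz x
  have hy := sub_ne hz y
  have h1 : K z x - K z y = -(2 * (e x - e y) * ((e x - z) * e y + z * (e y - z))) / ((e x - z) ^ 2 * (e y - z) ^ 2) := by
    unfold K; field_simp; ring
  have ha : 0 < ‖e x - z‖ := norm_pos_iff.mpr hx
  have hb : 0 < ‖e y - z‖ := norm_pos_iff.mpr hy
  have hd : 0 < 1 - ‖z‖ := by linarith
  have hda := norm_sub_ge hz x
  have hdb := norm_sub_ge hz y
  rw [h1, norm_div, norm_neg, norm_mul, norm_mul, norm_mul, norm_pow, norm_pow]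
  set a := ‖e x - z‖
  set b := ‖e y - z‖
  have h2 : ‖e x - e y‖ ≤ 2 * Real.pi * |x - y| := norm_e_sub_le x y
  have h3 : ‖(e x - z) * e y + z * (e y - z)‖ ≤ a + b := by
    refine (norm_add_le _ _).trans ?_
    rw [norm_mul, norm_mul, norm_e, mul_one]
    have : ‖z‖ * b ≤ 1 * b := mul_le_mul_of_nonneg_right hz.le hb.le
    linarith
  have h4 : 2 * (1 / (a * b)) ≤ 1 / a ^ 2 + 1 / b ^ 2 := by
    have := sq_nonneg (1 / a - 1 / b)
    have e1 : (1 / a - 1 / b) ^ 2 = 1 / a ^ 2 + 1 / b ^ 2 - 2 * (1 / (a * b)) := by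
      field_simp; ring
    linarith
  have h5 : (a + b) / (a ^ 2 * b ^ 2) ≤ 2 / (1 - ‖z‖) * (1 / (a * b)) := by
    rw [div_mul_div_comm, div_le_div_iff₀ (by positivity) (by positivity)]
    have : (a + b) * (1 - ‖z‖) ≤ 2 * (a * b) := by nlinarith
    nlinarith [mul_pos ha hb]
  have hpi := Real.pi_pos
  calc ‖(2:ℂ)‖ * ‖e x - e y‖ * ‖(e x - z) * e y + z * (e y - z)‖ / (a ^ 2 * b ^ 2)
      ≤ 2 * (2 * Real.pi * |x - y|) * (a + b) / (a ^ 2 * b ^ 2) := by
        have : ‖(2:ℂ)‖ = 2 := by simp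
        rw [this]
        gcongr
    _ = 2 * (2 * Real.pi * |x - y|) * ((a + b) / (a ^ 2 * b ^ 2)) := by ring
    _ ≤ 2 * (2 * Real.pi * |x - y|) * (2 / (1 - ‖z‖) * (1 / (a * b))) := by gcongr
    _ = 4 * Real.pi * |x - y| / (1 - ‖z‖) * (2 * (1 / (a * b))) := by ring
    _ ≤ _ := by
        apply mul_le_mul_of_nonneg_left h4
        positivity

lemma norm_K {z : ℂ} (x : ℝ) : ‖K z x‖ = 2 * (1 / ‖e x - z‖ ^ 2) := by
  unfold K
  rw [norm_div, norm_mul, norm_e, norm_pow]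
  simp; ring

lemma continuous_inv_sq {z : ℂ} (hz : ‖z‖ < 1) : Continuous (fun x => 1 / ‖e x - z‖ ^ 2) := by
  apply continuous_const.div (((continuous_e.sub continuous_const).norm).pow 2)
  intro x
  exact pow_ne_zero 2 (norm_ne_zero_iff.mpr (sub_ne hz x))

lemma inv_sq_periodic (z : ℂ) : Function.Periodic (fun x => 1 / ‖e x - z‖ ^ 2) 1 := by
  intro x; simp only [e_periodic x]

lemma K_periodic (z : ℂ) : Function.Periodic (K z) 1 := by
  intro x; simp only [K, e_periodic x]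

lemma H_periodic (z : ℂ) : Function.Periodic (H z) 1 := by
  intro x; simp only [H, e_periodic x]

lemma integral_inv_sq_shift {z : ℂ} (hz : ‖z‖ < 1) (h : ℝ) :
    ∫ x in (0:ℝ)..1, 1 / ‖e (x + h) - z‖ ^ 2 = 1 / (1 - ‖z‖ ^ 2) := by
  rw [← integral_inv_sq hz]
  have h1 := intervalIntegral.integral_comp_add_right (a := 0) (b := 1) (fun x => 1 / ‖e x - z‖ ^ 2) h
  rw [h1]
  have := (inv_sq_periodic z).intervalIntegral_add_eq h 0
  rw [zero_add, add_comm 1 h, this, zero_add]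

/-- shift identity -/
lemma shift_identity {L : ℝ → ℂ} (hL : Continuous L) (hLp : Function.Periodic L 1) {A : ℝ → ℝ} (hA : Measurable A)
    (hAp : Function.Periodic A 1) (hA1 : ∀ x, |A x| ≤ 1) (h : ℝ) :
    ∫ x in (0:ℝ)..1, L x * ((A x - A (x - h) : ℝ) : ℂ) = ∫ x in (0:ℝ)..1, (L x - L (x + h)) * (A x : ℂ) := by
  have hb : ∃ C, ∀ x, ‖L x‖ ≤ C := by
    obtain ⟨C, hC⟩ := isCompact_Icc.exists_bound_of_continuousOn (s := Icc (0:ℝ) 1) hL.continuousOn
    refine ⟨C, fun x => ?_⟩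
    have : L x = L (Int.fract x) := by
      have := hLp.sub_zsmul_eq (x := x) ⌊x⌋
      rw [zsmul_one] at this
      exact this.symm
    rw [this]
    exact hC _ ⟨Int.fract_nonneg x, (Int.fract_lt_one x).le⟩
  obtain ⟨C, hC⟩ := hb
  have i1 : ∀ (c d : ℝ) (a b : ℝ), IntervalIntegrable (fun x => L (x + c) * (A (x + d) : ℂ)) volume a b := by
    intro c d a b
    apply ii_of_bdd _ (C * 1)
    · intro x
      rw [norm_mul, Complex.norm_real, Real.norm_eq_abs]
      exact mul_le_mul (hC _) (hA1 _) (abs_nonneg _) ((norm_nonneg _).trans (hC 0))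
    · apply Measurable.aestronglyMeasurable
      exact ((hL.measurable.comp (measurable_id.add_const c))).mul (Complex.measurable_ofReal.comp (hA.comp (measurable_id.add_const d)))
  have e1 : ∫ x in (0:ℝ)..1, L x * ((A x - A (x - h) : ℝ) : ℂ) = (∫ x in (0:ℝ)..1, L x * (A x : ℂ)) - ∫ x in (0:ℝ)..1, L x * (A (x - h) : ℂ) := by
    rw [← intervalIntegral.integral_sub]
    · congr 1; funext x; push_cast; ring
    · simpa using i1 0 0 0 1
    · simpa [sub_eq_add_neg] using i1 0 (-h) 0 1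
  have e2 : ∫ x in (0:ℝ)..1, (L x - L (x + h)) * (A x : ℂ) = (∫ x in (0:ℝ)..1, L x * (A x : ℂ)) - ∫ x in (0:ℝ)..1, L (x + h) * (A x : ℂ) := by
    rw [← intervalIntegral.integral_sub]
    · congr 1; funext x; ring
    · simpa using i1 0 0 0 1
    · simpa using i1 h 0 0 1
  rw [e1, e2]
  congr 1
  have hp : Function.Periodic (fun x => L x * (A (x - h) : ℂ)) 1 := by
    intro x
    have := hAp (x - h)
    simp only
    rw [hLp x, show x + 1 - h = x - h + 1 by ring, this]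
  have h1 := intervalIntegral.integral_comp_add_right (a := 0) (b := 1) (fun x => L x * (A (x - h) : ℂ)) h
  simp only [add_sub_cancel_right] at h1
  rw [h1]
  have := hp.intervalIntegral_add_eq 0 h
  rw [zero_add, add_comm h 1] at this
  rw [this, zero_add]

/-- the Herglotz type transform -/
noncomputable def T (D : ℝ → ℝ) (z : ℂ) : ℂ := ∫ x in (0:ℝ)..1, H z x * (D x : ℂ)

noncomputable def T' (D : ℝ → ℝ) (z : ℂ) : ℂ := ∫ x in (0:ℝ)..1, K z x * (D x : ℂ)

lemma hasDerivAt_H {z : ℂ} (hz : ‖z‖ < 1) (x : ℝ) : HasDerivAt (fun z => H z x) (K z x) z := by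
  have h := sub_ne hz x
  have h1 : HasDerivAt (fun z : ℂ => e x + z) 1 z := by simpa using (hasDerivAt_id z).const_add (e x)
  have h2 : HasDerivAt (fun z : ℂ => e x - z) (-1) z := by simpa using (hasDerivAt_id z).const_sub (e x)
  have h3 := h1.div h2 h
  have h4 : (1 * (e x - z) - (e x + z) * -1) / (e x - z) ^ 2 = K z x := by
    unfold K; congr 1; ring
  exact h3.congr_deriv h4

lemma hasDerivAt_T {D : ℝ → ℝ} (hD : Measurable D) {C : ℝ} (hC : ∀ x, |D x| ≤ C) {z : ℂ} (hz : ‖z‖ < 1) :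
    HasDerivAt (T D) (T' D z) z := by
  obtain ⟨ρ, h1, h2⟩ := exists_between hz
  have hC0 : 0 ≤ C := (abs_nonneg _).trans (hC 0)
  have hms : ∀ w : ℂ, ‖w‖ < 1 → Measurable (fun x => H w x * (D x : ℂ)) := fun w hw =>
    (continuous_H hw).measurable.mul (Complex.measurable_ofReal.comp hD)
  have hmsK : ∀ w : ℂ, ‖w‖ < 1 → Measurable (fun x => K w x * (D x : ℂ)) := fun w hw =>
    (continuous_K hw).measurable.mul (Complex.measurable_ofReal.comp hD)
  have hball : ball (0:ℂ) ρ ∈ 𝓝 z := isOpen_ball.mem_nhds (by simpa using h1)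
  refine (intervalIntegral.hasDerivAt_integral_of_dominated_loc_of_deriv_le (𝕜 := ℂ) (s := ball (0:ℂ) ρ)
    (F := fun z x => H z x * (D x : ℂ)) (F' := fun z x => K z x * (D x : ℂ)) (bound := fun _ => 2 / (1 - ρ) ^ 2 * C)
    hball ?_ ?_ ?_ ?_ ?_ ?_).2
  · filter_upwards [hball] with w hw
    exact (hms w (lt_trans (by simpa using hw) h2)).aestronglyMeasurable
  · have hb : ∀ x, ‖H z x‖ ≤ 2 / (1 - ‖z‖) := by
      intro x
      unfold H
      rw [norm_div]
      have hd : 0 < 1 - ‖z‖ := by linarith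
      apply div_le_div₀ (by norm_num) _ hd (norm_sub_ge hz x)
      refine (norm_add_le _ _).trans ?_
      rw [norm_e]; linarith
    apply ii_of_bdd (hms z hz).aestronglyMeasurable (2 / (1 - ‖z‖) * C)
    intro x
    rw [norm_mul, Complex.norm_real, Real.norm_eq_abs]
    exact mul_le_mul (hb x) (hC x) (abs_nonneg _) (by have : 0 < 1 - ‖z‖ := by linarith
                                                      positivity)
  · exact (hmsK z hz).aestronglyMeasurable
  · refine Eventually.of_forall (fun x _ w hw => ?_)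
    have hw' : ‖w‖ < ρ := by simpa using hw
    rw [norm_mul, Complex.norm_real, Real.norm_eq_abs]
    apply mul_le_mul _ (hC x) (abs_nonneg _) (by positivity)
    rw [norm_K, mul_one_div]
    have hd : 0 < 1 - ρ := by linarith
    apply div_le_div_of_nonneg_left (by norm_num) (by positivity)
    apply pow_le_pow_left₀ hd.le
    have := norm_sub_ge (lt_trans hw' h2) x
    linarith
  · exact intervalIntegrable_const
  · refine Eventually.of_forall (fun x _ w hw => ?_)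
    have hw' : ‖w‖ < 1 := lt_trans (by simpa using hw) h2
    exact (hasDerivAt_H hw' x).mul_const _

lemma norm_T'_le {D : ℝ → ℝ} {C : ℝ} (hC : ∀ x, |D x| ≤ C) {z : ℂ} (hz : ‖z‖ < 1) :
    ‖T' D z‖ ≤ 2 * C / (1 - ‖z‖ ^ 2) := by
  unfold T'
  have hC0 : 0 ≤ C := (abs_nonneg _).trans (hC 0)
  have h1 : ‖∫ x in (0:ℝ)..1, K z x * (D x : ℂ)‖ ≤ ∫ x in (0:ℝ)..1, 2 * C * (1 / ‖e x - z‖ ^ 2) := by
    apply intervalIntegral.norm_integral_le_of_norm_le zero_le_one
    · refine Eventually.of_forall (fun x _ => ?_)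
      rw [norm_mul, norm_K, Complex.norm_real, Real.norm_eq_abs]
      calc 2 * (1 / ‖e x - z‖ ^ 2) * |D x| ≤ 2 * (1 / ‖e x - z‖ ^ 2) * C := mul_le_mul_of_nonneg_left (hC x) (by positivity)
        _ = _ := by ring
    · exact ((continuous_inv_sq hz).const_mul (2 * C)).intervalIntegrable _ _
  refine h1.trans (le_of_eq ?_)
  rw [intervalIntegral.integral_const_mul, integral_inv_sq hz]
  ring

lemma norm_shift_le {L : ℝ → ℂ} (hL : Continuous L) (hLp : Function.Periodic L 1) {A : ℝ → ℝ} (hA : Measurable A)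
    (hAp : Function.Periodic A 1) (hA1 : ∀ x, |A x| ≤ 1) {h : ℝ} {c : ℝ} (hc : 0 ≤ c) {z : ℂ} (hz : ‖z‖ < 1)
    (hLL : ∀ x, ‖L x - L (x + h)‖ ≤ c * (1 / ‖e x - z‖ ^ 2 + 1 / ‖e (x + h) - z‖ ^ 2)) :
    ‖∫ x in (0:ℝ)..1, L x * ((A x - A (x - h) : ℝ) : ℂ)‖ ≤ 2 * c / (1 - ‖z‖ ^ 2) := by
  rw [shift_identity hL hLp hA hAp hA1 h]
  have hcont2 : Continuous (fun x => 1 / ‖e (x + h) - z‖ ^ 2) := (continuous_inv_sq hz).comp (continuous_id.add continuous_const)
  have h1 : ‖∫ x in (0:ℝ)..1, (L x - L (x + h)) * (A x : ℂ)‖ ≤ ∫ x in (0:ℝ)..1, c * (1 / ‖e x - z‖ ^ 2 + 1 / ‖e (x + h) - z‖ ^ 2) := by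
    apply intervalIntegral.norm_integral_le_of_norm_le zero_le_one
    · refine Eventually.of_forall (fun x _ => ?_)
      rw [norm_mul, Complex.norm_real, Real.norm_eq_abs]
      calc ‖L x - L (x + h)‖ * |A x| ≤ ‖L x - L (x + h)‖ * 1 := mul_le_mul_of_nonneg_left (hA1 x) (norm_nonneg _)
        _ ≤ _ := by rw [mul_one]; exact hLL x
    · exact (((continuous_inv_sq hz).add hcont2).const_mul c).intervalIntegrable _ _
  refine h1.trans (le_of_eq ?_)
  rw [intervalIntegral.integral_const_mul, intervalIntegral.integral_add ((continuous_inv_sq hz).intervalIntegrable _ _) (hcont2.intervalIntegrable _ _),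
    integral_inv_sq hz, integral_inv_sq_shift hz]
  ring

/-- coarse levels -/
lemma norm_T'_coarse {D : ℝ → ℝ} (hD : Measurable D) (hDp : Function.Periodic D 1) (hD1 : ∀ x, |D x| ≤ 1)
    {r x₀ ε : ℝ} (hr0 : 0 ≤ r) (hr : r < 1) (hε : 0 < ε) (hconst : ∀ x, |x - x₀| < ε → D x = D x₀) :
    ‖T' D (r * e x₀)‖ ≤ 2 * Real.pi / ε := by
  have hnz : ‖(r:ℂ) * e x₀‖ = r := by rw [norm_mul, norm_e, Complex.norm_real, Real.norm_of_nonneg hr0, mul_one]
  have hz : ‖(r:ℂ) * e x₀‖ < 1 := by rw [hnz]; exact hr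
  set z : ℂ := (r:ℂ) * e x₀ with hzdef
  unfold T'
  have hKD : ∀ (a b : ℝ), IntervalIntegrable (fun x => K z x * (D x : ℂ)) volume a b := by
    intro a b
    apply ii_of_bdd _ (2 * (1 / (1 - ‖z‖) ^ 2) * 1)
    · intro x
      rw [norm_mul, norm_K, Complex.norm_real, Real.norm_eq_abs]
      have hd : 0 < 1 - ‖z‖ := by linarith
      have := norm_sub_ge hz x
      apply mul_le_mul _ (hD1 x) (abs_nonneg _) (by positivity)
      gcongr
    · exact ((continuous_K hz).measurable.mul (Complex.measurable_ofReal.comp hD)).aestronglyMeasurable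
  have hKDp : Function.Periodic (fun x => K z x * (D x : ℂ)) 1 := by
    intro x; simp only [K_periodic z x, hDp x]
  have e1 := hKDp.intervalIntegral_add_eq 0 (x₀ - 1/2)
  rw [zero_add] at e1
  have e2 := (K_periodic z).intervalIntegral_add_eq 0 (x₀ - 1/2)
  rw [zero_add, integral_K hz] at e2
  have e3 : ∫ x in (x₀ - 1/2)..(x₀ - 1/2 + 1), K z x * ((D x - D x₀ : ℝ) : ℂ) = ∫ x in (0:ℝ)..1, K z x * (D x : ℂ) := by
    rw [e1]
    have : ∀ x, K z x * ((D x - D x₀ : ℝ) : ℂ) = K z x * (D x : ℂ) - K z x * (D x₀ : ℂ) := by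
      intro x; push_cast; ring
    simp_rw [this]
    have i2 : IntervalIntegrable (fun x => K z x * (D x₀ : ℂ)) volume (x₀ - 1/2) (x₀ - 1/2 + 1) :=
      ((continuous_K hz).mul continuous_const).intervalIntegrable _ _
    rw [intervalIntegral.integral_sub (hKD _ _) i2,
      intervalIntegral.integral_mul_const, ← e2]
    simp
  rw [← e3]
  have hpi := Real.pi_pos
  have hderiv : ∀ x : ℝ, HasDerivAt (fun x => (2 / ε) * Real.arctan ((x - x₀) / ε)) (2 / ((x - x₀) ^ 2 + ε ^ 2)) x := by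
    intro x
    have h1 : HasDerivAt (fun x => (x - x₀) / ε) (1 / ε) x := ((hasDerivAt_id x).sub_const x₀).div_const ε
    have h2 := (h1.arctan).const_mul (2 / ε)
    have h3 : (x - x₀) ^ 2 + ε ^ 2 ≠ 0 := by positivity
    have h4 : 1 + ((x - x₀) / ε) ^ 2 = ((x - x₀) ^ 2 + ε ^ 2) / ε ^ 2 := by field_simp; ring
    refine h2.congr_deriv ?_
    rw [h4]
    field_simp
  have hcont : Continuous (fun x : ℝ => 2 / ((x - x₀) ^ 2 + ε ^ 2)) := by
    apply continuous_const.div (by fun_prop)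
    intro x; positivity
  have hbd : ‖∫ x in (x₀ - 1/2)..(x₀ - 1/2 + 1), K z x * ((D x - D x₀ : ℝ) : ℂ)‖ ≤ ∫ x in (x₀ - 1/2)..(x₀ - 1/2 + 1), 2 / ((x - x₀) ^ 2 + ε ^ 2) := by
    apply intervalIntegral.norm_integral_le_of_norm_le (by linarith)
    · refine Eventually.of_forall (fun x hx => ?_)
      have hx' : |x - x₀| ≤ 1 / 2 := by rw [abs_le]; constructor <;> linarith [hx.1, hx.2]
      by_cases hlt : |x - x₀| < ε
      · rw [hconst x hlt]; simp; positivity
      · push Not at hlt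
        have ht : 0 < |x - x₀| := lt_of_lt_of_le hε hlt
        rw [norm_mul, norm_K, Complex.norm_real, Real.norm_eq_abs]
        have h1 : |D x - D x₀| ≤ 2 := by
          have := abs_sub (D x) (D x₀)
          have := hD1 x
          have := hD1 x₀
          linarith
        have h2 : ‖e x - e x₀‖ ≤ 2 * ‖e x - z‖ := by
          have a1 : ‖e x - e x₀‖ ≤ ‖e x - z‖ + ‖z - e x₀‖ := by
            have := norm_add_le (e x - z) (z - e x₀)
            simpa using this
          have a2 : ‖z - e x₀‖ = 1 - r := by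
            have : z - e x₀ = ((r - 1 : ℝ) : ℂ) * e x₀ := by rw [hzdef]; push_cast; ring
            rw [this, norm_mul, norm_e, mul_one, Complex.norm_real, Real.norm_eq_abs, abs_of_nonpos (by linarith)]
            ring
          have a3 := norm_sub_ge hz x
          rw [hnz] at a3
          linarith
        have h3 : 2 * |x - x₀| ≤ ‖e x - z‖ := by
          have := norm_e_sub_ge hx'
          linarith
        have h4 : 1 / ‖e x - z‖ ^ 2 ≤ 1 / (2 * |x - x₀|) ^ 2 := by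
          apply one_div_le_one_div_of_le (by positivity)
          exact pow_le_pow_left₀ (by positivity) h3 2
        have h5 : (x - x₀) ^ 2 + ε ^ 2 ≤ 2 * |x - x₀| ^ 2 := by
          rw [← sq_abs (x - x₀)]
          nlinarith
        calc 2 * (1 / ‖e x - z‖ ^ 2) * |D x - D x₀| ≤ 2 * (1 / (2 * |x - x₀|) ^ 2) * 2 := by
              apply mul_le_mul (mul_le_mul_of_nonneg_left h4 (by norm_num)) h1 (abs_nonneg _) (by positivity)
          _ = 2 / (2 * |x - x₀| ^ 2) := by field_simp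
          _ ≤ 2 / ((x - x₀) ^ 2 + ε ^ 2) := by
              apply div_le_div_of_nonneg_left (by norm_num) (by positivity) h5
    · exact hcont.intervalIntegrable _ _
  refine hbd.trans ?_
  rw [intervalIntegral.integral_eq_sub_of_hasDerivAt (fun x _ => hderiv x) (hcont.intervalIntegrable _ _)]
  have b1 := Real.arctan_lt_pi_div_two ((x₀ - 1/2 + 1 - x₀) / ε)
  have b2 := Real.neg_pi_div_two_lt_arctan ((x₀ - 1/2 - x₀) / ε)
  have b3 : 0 < 2 / ε := by positivity
  have : 2 * Real.pi / ε = (2 / ε) * Real.pi := by ring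
  rw [this]
  nlinarith

noncomputable def Dj (j : ℕ) (x : ℝ) : ℝ := M (j + 1) x - M j x

noncomputable def Aj (j : ℕ) (x : ℝ) : ℝ :=
  if ⌊(4:ℝ) ^ (j + 1) * x⌋ % 4 = 1 ∧ m j (⌊(4:ℝ) ^ (j + 1) * x⌋ / 4) ≠ 0 then 1 else 0

lemma floor_div (j : ℕ) (x : ℝ) : ⌊(4:ℝ) ^ (j + 1) * x⌋ / 4 = ⌊(4:ℝ) ^ j * x⌋ := by
  rw [pow_succ, mul_comm ((4:ℝ) ^ j) 4, mul_assoc, floor_four]

lemma Dj_formula (j : ℕ) (x : ℝ) : Dj j x =
    (upd (m j (⌊(4:ℝ) ^ (j + 1) * x⌋ / 4)) (⌊(4:ℝ) ^ (j + 1) * x⌋ % 4) : ℝ) - (m j (⌊(4:ℝ) ^ (j + 1) * x⌋ / 4) : ℝ) := by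
  unfold Dj
  rw [M_succ, floor_div]
  rfl

lemma upd_sub (v : ℕ) (n : ℤ) : ((upd v (n % 4) : ℕ) : ℝ) - v =
    (if n % 4 = 1 ∧ v ≠ 0 then (1:ℝ) else 0) - (if n % 4 = 2 ∧ v ≠ 0 then (1:ℝ) else 0) := by
  unfold upd
  by_cases h0 : v = 0
  · simp [h0]
  · have h1 : 1 ≤ v := Nat.one_le_iff_ne_zero.mpr h0
    by_cases h2 : n % 4 = 1
    · simp [h0, h2]
    · by_cases h3 : n % 4 = 2
      · simp [h0, h3, Nat.cast_sub h1]
      · simp [h0, h2, h3]

lemma Dj_eq (j : ℕ) (x : ℝ) : Dj j x = Aj j x - Aj j (x - 1 / 4 ^ (j + 1)) := by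
  rw [Dj_formula, upd_sub]
  unfold Aj
  have h4 : (0:ℝ) < 4 ^ (j + 1) := by positivity
  have hf : ⌊(4:ℝ) ^ (j + 1) * (x - 1 / 4 ^ (j + 1))⌋ = ⌊(4:ℝ) ^ (j + 1) * x⌋ - 1 := by
    rw [mul_sub, mul_one_div, div_self h4.ne', Int.floor_sub_one]
  rw [hf]
  congr 1
  set n := ⌊(4:ℝ) ^ (j + 1) * x⌋
  by_cases h : n % 4 = 2
  · have h1 : (n - 1) % 4 = 1 := by omega
    have h2 : (n - 1) / 4 = n / 4 := by omega
    simp [h, h1, h2]
  · have h1 : (n - 1) % 4 ≠ 1 := by omega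
    simp [h, h1]

lemma measurable_Aj (j : ℕ) : Measurable (Aj j) := by
  have h1 : Measurable (fun x : ℝ => ⌊(4:ℝ) ^ (j + 1) * x⌋) := Int.measurable_floor.comp (measurable_const.mul measurable_id)
  have h2 : Measurable (fun n : ℤ => if n % 4 = 1 ∧ m j (n / 4) ≠ 0 then (1:ℝ) else 0) := measurable_from_top
  exact h2.comp h1

lemma abs_Aj (j : ℕ) (x : ℝ) : |Aj j x| ≤ 1 := by
  unfold Aj; split_ifs <;> simp

lemma Aj_periodic (j : ℕ) : Function.Periodic (Aj j) 1 := by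
  intro x
  unfold Aj
  have : ⌊(4:ℝ) ^ (j + 1) * (x + 1)⌋ = ⌊(4:ℝ) ^ (j + 1) * x⌋ + 4 ^ (j + 1) := by
    rw [mul_add, mul_one]
    have : ((4:ℝ) ^ (j + 1)) = (((4 ^ (j + 1) : ℤ)) : ℝ) := by push_cast; rfl
    nth_rw 2 [this]
    rw [Int.floor_add_intCast]
  rw [this]
  set n := ⌊(4:ℝ) ^ (j + 1) * x⌋
  have h1 : (n + 4 ^ (j + 1)) / 4 = n / 4 + 4 ^ j := by rw [pow_succ]; omega
  have h2 : (n + 4 ^ (j + 1)) % 4 = n % 4 := by rw [pow_succ]; omega
  rw [h1, h2, m_periodic]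

lemma measurable_Dj (j : ℕ) : Measurable (Dj j) := (measurable_M _).sub (measurable_M _)

lemma Dj_periodic (j : ℕ) : Function.Periodic (Dj j) 1 := by
  intro x; unfold Dj; rw [M_periodic (j + 1) x, M_periodic j x]

lemma abs_Dj (j : ℕ) (x : ℝ) : |Dj j x| ≤ 1 := by
  rw [Dj_formula, upd_sub]
  split_ifs <;> simp

/-- local constancy away from the points `p / 4^(j+1)` with `p` not divisible by 4 -/
lemma Dj_const {j : ℕ} {x₀ ε : ℝ} (h : ∀ p : ℤ, ¬ (4 ∣ p) → ε ≤ |x₀ - p / 4 ^ (j + 1)|) :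
    ∀ x, |x - x₀| < ε → Dj j x = Dj j x₀ := by
  intro x hx
  have h4 : (0:ℝ) < 4 ^ (j + 1) := by positivity
  rw [Dj_formula, Dj_formula, upd_sub, upd_sub]
  set n := ⌊(4:ℝ) ^ (j + 1) * x⌋ with hn
  set n₀ := ⌊(4:ℝ) ^ (j + 1) * x₀⌋ with hn₀
  -- every integer in the gap is divisible by 4
  have key : ∀ p : ℤ, (n₀ < p ∧ p ≤ n) ∨ (n < p ∧ p ≤ n₀) → (4 ∣ p) := by
    intro p hp
    by_contra hnd
    have h1 := h p hnd
    have h2 : |x₀ - p / 4 ^ (j + 1)| ≤ |x - x₀| := by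
      rcases hp with ⟨ha, hb⟩ | ⟨ha, hb⟩
      · have a1 : (4:ℝ) ^ (j + 1) * x₀ < p := Int.floor_lt.mp ha
        have a2 : (p:ℝ) ≤ 4 ^ (j + 1) * x := Int.le_floor.mp hb
        have a3 : x₀ < p / 4 ^ (j + 1) := by rw [lt_div_iff₀ h4]; linarith
        have a4 : p / 4 ^ (j + 1) ≤ x := by rw [div_le_iff₀ h4]; linarith
        rw [abs_of_neg (by linarith), abs_of_nonneg (by linarith)]; linarith
      · have a1 : (4:ℝ) ^ (j + 1) * x < p := Int.floor_lt.mp ha
        have a2 : (p:ℝ) ≤ 4 ^ (j + 1) * x₀ := Int.le_floor.mp hb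
        have a3 : x < p / 4 ^ (j + 1) := by rw [lt_div_iff₀ h4]; linarith
        have a4 : p / 4 ^ (j + 1) ≤ x₀ := by rw [div_le_iff₀ h4]; linarith
        rw [abs_of_nonneg (by linarith), abs_of_neg (by linarith)]; linarith
    linarith
  rcases lt_trichotomy n₀ n with hlt | heq | hgt
  · have k1 := key (n₀ + 1) (Or.inl ⟨by omega, by omega⟩)
    have k2 : n = n₀ + 1 := by
      by_contra hne
      have := key (n₀ + 2) (Or.inl ⟨by omega, by omega⟩)
      omega
    have e1 : n % 4 = 0 := by omega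
    have e2 : n₀ % 4 = 3 := by omega
    simp [e1, e2]
  · rw [heq]
  · have k1 := key (n + 1) (Or.inr ⟨by omega, by omega⟩)
    have k2 : n₀ = n + 1 := by
      by_contra hne
      have := key (n + 2) (Or.inr ⟨by omega, by omega⟩)
      omega
    have e1 : n₀ % 4 = 0 := by omega
    have e2 : n % 4 = 3 := by omega
    simp [e1, e2]

lemma comb {c : ℕ → ℝ} {x C : ℝ} (hC : 0 ≤ C)
    (h : ∀ (j : ℕ) (ε : ℝ), 0 < ε → (∀ p : ℤ, ¬ (4 ∣ p) → ε ≤ |x - p / 4 ^ (j + 1)|) → c j ≤ (C / 2) / ε) (n : ℕ) :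
    ∑ j ∈ Finset.range n, min (c j) (C * 4 ^ n) ≤ 8 / 3 * C * 4 ^ n := by
  induction n with
  | zero => simp; positivity
  | succ n ih =>
    rw [Finset.sum_range_succ]
    have h4 : (0:ℝ) < 4 ^ n := by positivity
    -- exceptional index
    classical
    set E := (Finset.range n).filter (fun j => ∃ p : ℤ, ¬ (4 ∣ p) ∧ |x - p / 4 ^ (j + 1)| < 1 / (2 * 4 ^ n)) with hE
    have hcard : E.card ≤ 1 := by
      rw [Finset.card_le_one]
      -- wlog i < j
      have aux : ∀ i j : ℕ, i < j → j < n → (∃ p : ℤ, ¬ (4 ∣ p) ∧ |x - p / 4 ^ (i + 1)| < 1 / (2 * 4 ^ n)) →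
          (∃ p : ℤ, ¬ (4 ∣ p) ∧ |x - p / 4 ^ (j + 1)| < 1 / (2 * 4 ^ n)) → False := by
        rintro i j hij hjn ⟨p, _, hp⟩ ⟨q, hq, hq2⟩
        obtain ⟨d, rfl⟩ := Nat.exists_eq_add_of_lt hij
        have e1 : (p:ℝ) / 4 ^ (i + 1) - q / 4 ^ (i + d + 1 + 1) = ((p * 4 ^ (d + 1) - q : ℤ) : ℝ) / 4 ^ (i + d + 1 + 1) := by
          push_cast
          rw [show i + d + 1 + 1 = (i + 1) + (d + 1) by ring, pow_add]
          field_simp
          ring
        have hne : p * 4 ^ (d + 1) - q ≠ 0 := by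
          intro h0
          apply hq
          have : q = p * 4 ^ (d + 1) := by linarith
          rw [this, pow_succ]
          exact ⟨p * 4 ^ d, by ring⟩
        have e2 : (1:ℝ) ≤ |((p * 4 ^ (d + 1) - q : ℤ) : ℝ)| := by
          rw [← Int.cast_abs]
          exact_mod_cast Int.one_le_abs hne
        have e3 : |(p:ℝ) / 4 ^ (i + 1) - q / 4 ^ (i + d + 1 + 1)| < 1 / 4 ^ n := by
          have : (p:ℝ) / 4 ^ (i + 1) - q / 4 ^ (i + d + 1 + 1) = (x - q / 4 ^ (i + d + 1 + 1)) - (x - p / 4 ^ (i + 1)) := by ring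
          rw [this]
          refine (abs_sub _ _).trans_lt ?_
          have : (1:ℝ) / 4 ^ n = 1 / (2 * 4 ^ n) + 1 / (2 * 4 ^ n) := by field_simp; norm_num
          rw [this]
          linarith
        rw [e1, abs_div, abs_of_pos (by positivity : (0:ℝ) < 4 ^ (i + d + 1 + 1))] at e3
        have e4 : (1:ℝ) / 4 ^ n ≤ 1 / 4 ^ (i + d + 1 + 1) := by
          apply one_div_le_one_div_of_le (by positivity)
          exact pow_le_pow_right₀ (by norm_num) (by omega)
        have e5 : 1 / (4:ℝ) ^ (i + d + 1 + 1) ≤ |((p * 4 ^ (d + 1) - q : ℤ) : ℝ)| / 4 ^ (i + d + 1 + 1) := by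
          gcongr
        linarith
      intro a ha b hb
      simp only [hE, Finset.mem_filter, Finset.mem_range] at ha hb
      rcases lt_trichotomy a b with hab | hab | hab
      · exact (aux a b hab hb.1 ha.2 hb.2).elim
      · exact hab
      · exact (aux b a hab ha.1 hb.2 ha.2).elim
    have hterm : ∀ j ∈ Finset.range n, min (c j) (C * 4 ^ (n + 1)) ≤ min (c j) (C * 4 ^ n) + (if j ∈ E then C * 4 ^ (n + 1) - C * 4 ^ n else 0) := by
      intro j hj
      split_ifs with hjE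
      · rcases le_total (c j) (C * 4 ^ n) with h1 | h1
        · rw [min_eq_left h1]
          have : C * 4 ^ n ≤ C * 4 ^ (n + 1) := by
            rw [pow_succ]; nlinarith [mul_nonneg hC h4.le]
          have := min_le_left (c j) (C * 4 ^ (n + 1))
          linarith
        · rw [min_eq_right h1]
          have := min_le_right (c j) (C * 4 ^ (n + 1))
          linarith
      · have : c j ≤ C * 4 ^ n := by
          have := h j (1 / (2 * 4 ^ n)) (by positivity) ?_
          · refine this.trans (le_of_eq ?_); field_simp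
          · intro p hp
            by_contra hcon
            push Not at hcon
            exact hjE (by simp only [hE, Finset.mem_filter]; exact ⟨hj, p, hp, hcon⟩)
        rw [min_eq_left this]
        have := min_le_left (c j) (C * 4 ^ (n + 1))
        linarith
    have hsum := Finset.sum_le_sum hterm
    rw [Finset.sum_add_distrib, Finset.sum_ite_mem, Finset.sum_const, nsmul_eq_mul] at hsum
    have hc2 : (((Finset.range n ∩ E).card : ℕ) : ℝ) ≤ 1 := by
      have : (Finset.range n ∩ E).card ≤ E.card := Finset.card_le_card Finset.inter_subset_right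
      exact_mod_cast this.trans hcard
    have hpos : 0 ≤ C * 4 ^ (n + 1) - C * 4 ^ n := by
      rw [pow_succ]; nlinarith [mul_nonneg hC h4.le]
    have hlast := min_le_right (c n) (C * 4 ^ (n + 1))
    have h5 : (((Finset.range n ∩ E).card : ℕ) : ℝ) * (C * 4 ^ (n + 1) - C * 4 ^ n) ≤ 1 * (C * 4 ^ (n + 1) - C * 4 ^ n) :=
      mul_le_mul_of_nonneg_right hc2 hpos
    rw [pow_succ] at *
    nlinarith [mul_nonneg hC h4.le]

lemma T_sum (k : ℕ) {z : ℂ} (hz : ‖z‖ < 1) : T (M k) z = 1 + ∑ j ∈ Finset.range k, T (Dj j) z := by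
  have hii : ∀ (D : ℝ → ℝ), Measurable D → (∃ C, ∀ x, |D x| ≤ C) → IntervalIntegrable (fun x => H z x * (D x : ℂ)) volume 0 1 := by
    rintro D hD ⟨C, hC⟩
    have hb : ∀ x, ‖H z x‖ ≤ 2 / (1 - ‖z‖) := by
      intro x
      unfold H
      rw [norm_div]
      have hd : 0 < 1 - ‖z‖ := by linarith
      apply div_le_div₀ (by norm_num) _ hd (norm_sub_ge hz x)
      refine (norm_add_le _ _).trans ?_
      rw [norm_e]; linarith
    apply ii_of_bdd _ (2 / (1 - ‖z‖) * C)
    · intro x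
      rw [norm_mul, Complex.norm_real, Real.norm_eq_abs]
      exact mul_le_mul (hb x) (hC x) (abs_nonneg _) (by have : 0 < 1 - ‖z‖ := by linarith
                                                        positivity)
    · exact ((continuous_H hz).measurable.mul (Complex.measurable_ofReal.comp hD)).aestronglyMeasurable
  induction k with
  | zero =>
    simp only [Finset.range_zero, Finset.sum_empty, add_zero]
    unfold T
    rw [← integral_H hz]
    congr 1
    funext x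
    simp [M, m]
  | succ k ih =>
    rw [Finset.sum_range_succ, ← add_assoc, ← ih]
    unfold T
    rw [← intervalIntegral.integral_add]
    · congr 1
      funext x
      unfold Dj
      push_cast; ring
    · apply hii _ (measurable_M k)
      refine ⟨(k:ℝ) + 1, fun x => ?_⟩
      rw [abs_of_nonneg (M_nonneg k x)]; exact M_le k x
    · exact hii _ (measurable_Dj k) ⟨1, abs_Dj k⟩

lemma norm_T_Dj {z : ℂ} (hz : ‖z‖ < 1) (j : ℕ) : ‖T (Dj j) z‖ ≤ 4 * Real.pi / (1 - ‖z‖ ^ 2) * (1 / 4 ^ (j + 1)) := by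
  unfold T
  have hpi := Real.pi_pos
  have h := norm_shift_le (continuous_H hz) (H_periodic z) (measurable_Aj j) (Aj_periodic j) (abs_Aj j)
    (h := 1 / 4 ^ (j + 1)) (c := 2 * Real.pi * (1 / 4 ^ (j + 1))) (by positivity) hz ?_
  · simp_rw [Dj_eq]
    refine h.trans (le_of_eq ?_)
    ring
  · intro x
    have := norm_H_sub hz x (x + 1 / 4 ^ (j + 1))
    have e1 : |x - (x + 1 / 4 ^ (j + 1))| = 1 / 4 ^ (j + 1) := by
      rw [show x - (x + 1 / 4 ^ (j + 1)) = -(1 / 4 ^ (j + 1)) by ring, abs_neg, abs_of_pos (by positivity)]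
    rw [e1] at this
    exact this

lemma norm_T'_Dj {z : ℂ} (hz : ‖z‖ < 1) (j : ℕ) : ‖T' (Dj j) z‖ ≤ 8 * Real.pi / (1 - ‖z‖) ^ 2 * (1 / 4 ^ (j + 1)) := by
  unfold T'
  have hpi := Real.pi_pos
  have hd : 0 < 1 - ‖z‖ := by linarith
  have h := norm_shift_le (continuous_K hz) (K_periodic z) (measurable_Aj j) (Aj_periodic j) (abs_Aj j)
    (h := 1 / 4 ^ (j + 1)) (c := 4 * Real.pi * (1 / 4 ^ (j + 1)) / (1 - ‖z‖)) (by positivity) hz ?_
  · simp_rw [Dj_eq]
    refine h.trans ?_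
    have h1 : 1 - ‖z‖ ≤ 1 - ‖z‖ ^ 2 := by nlinarith [norm_nonneg z]
    calc 2 * (4 * Real.pi * (1 / 4 ^ (j + 1)) / (1 - ‖z‖)) / (1 - ‖z‖ ^ 2)
        ≤ 2 * (4 * Real.pi * (1 / 4 ^ (j + 1)) / (1 - ‖z‖)) / (1 - ‖z‖) := by gcongr
      _ = _ := by field_simp; ring
  · intro x
    have := norm_K_sub hz x (x + 1 / 4 ^ (j + 1))
    have e1 : |x - (x + 1 / 4 ^ (j + 1))| = 1 / 4 ^ (j + 1) := by
      rw [show x - (x + 1 / 4 ^ (j + 1)) = -(1 / 4 ^ (j + 1)) by ring, abs_neg, abs_of_pos (by positivity)]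
    rw [e1] at this
    exact this

lemma exists_e (z : ℂ) : ∃ x : ℝ, z = (‖z‖ : ℝ) * e x := by
  refine ⟨z.arg / (2 * Real.pi), ?_⟩
  unfold e
  have : 2 * Real.pi * (z.arg / (2 * Real.pi)) = z.arg := by field_simp
  rw [this, Complex.norm_mul_exp_arg_mul_I]

lemma sum_T'_Dj {z : ℂ} (hz : ‖z‖ < 1) : Summable (fun j => ‖T' (Dj j) z‖) ∧
    ∑' j, ‖T' (Dj j) z‖ ≤ 150 * Real.pi / (1 - ‖z‖) := by
  have hpi := Real.pi_pos
  have hpi3 := Real.pi_gt_three
  set δ := 1 - ‖z‖ with hδ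
  have hd : 0 < δ := by linarith
  have hd1 : δ ≤ 1 := by linarith [norm_nonneg z]
  obtain ⟨x, hx⟩ := exists_e z
  have hgeo : ∀ n : ℕ, HasSum (fun j : ℕ => 8 * Real.pi / δ ^ 2 * (1 / 4 ^ (j + n + 1))) (8 * Real.pi / δ ^ 2 * (1 / 4 ^ n * (1 / 3))) := by
    intro n
    have h1 : HasSum (fun j : ℕ => ((1:ℝ) / 4) ^ j) (1 - 1 / 4)⁻¹ := hasSum_geometric_of_lt_one (by norm_num) (by norm_num)
    have h2 := h1.mul_left (8 * Real.pi / δ ^ 2 * (1 / 4 ^ (n + 1)))
    have e1 : (fun j : ℕ => 8 * Real.pi / δ ^ 2 * (1 / 4 ^ (j + n + 1))) = fun j : ℕ => 8 * Real.pi / δ ^ 2 * (1 / 4 ^ (n + 1)) * (1 / 4) ^ j := by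
      funext j
      rw [show j + n + 1 = j + (n + 1) by ring, pow_add, div_pow, one_pow]
      field_simp
    have e2 : 8 * Real.pi / δ ^ 2 * (1 / 4 ^ n * (1 / 3)) = 8 * Real.pi / δ ^ 2 * (1 / 4 ^ (n + 1)) * (1 - 1 / 4)⁻¹ := by
      rw [pow_succ]; field_simp; norm_num; ring
    rw [e1, e2]
    exact h2
  have hsum : Summable (fun j => ‖T' (Dj j) z‖) := by
    refine Summable.of_nonneg_of_le (fun _ => norm_nonneg _) (fun j => norm_T'_Dj hz j) ?_
    exact (hgeo 0).summable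
  refine ⟨hsum, ?_⟩
  -- choose k
  have hex : ∃ n : ℕ, 1 / δ ≤ (4:ℝ) ^ n := by
    obtain ⟨n, hn⟩ := pow_unbounded_of_one_lt (1 / δ) (by norm_num : (1:ℝ) < 4)
    exact ⟨n, hn.le⟩
  set k := Nat.find hex with hk
  have hk1 : 1 / δ ≤ (4:ℝ) ^ k := Nat.find_spec hex
  have hk2 : (4:ℝ) ^ k ≤ 4 / δ := by
    rcases Nat.eq_zero_or_pos k with h0 | h0
    · rw [h0, pow_zero, le_div_iff₀ hd]; linarith
    · have := Nat.find_min hex (m := k - 1) (by omega)
      push Not at this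
      have e1 : (4:ℝ) ^ k = 4 ^ (k - 1) * 4 := by
        rw [← pow_succ]; congr 1; omega
      rw [e1]
      have : (4:ℝ) ^ (k - 1) * 4 ≤ 1 / δ * 4 := by nlinarith
      refine this.trans (le_of_eq ?_); ring
  rw [← hsum.sum_add_tsum_nat_add k]
  have hcoarse : ∑ j ∈ Finset.range k, ‖T' (Dj j) z‖ ≤ 8 / 3 * (4 * Real.pi) * 4 ^ k := by
    have hc := comb (c := fun j => ‖T' (Dj j) z‖) (x := x) (C := 4 * Real.pi) (by positivity) ?_ k
    · refine le_trans (le_of_eq ?_) hc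
      apply Finset.sum_congr rfl
      intro j _
      symm
      apply min_eq_left
      have h1 := norm_T'_le (abs_Dj j) hz
      have h2 : (2:ℝ) * 1 / (1 - ‖z‖ ^ 2) ≤ 2 / δ := by
        rw [mul_one]
        apply div_le_div_of_nonneg_left (by norm_num) hd
        rw [hδ]; nlinarith [norm_nonneg z]
      have h3 : 2 / δ ≤ 4 * Real.pi * 4 ^ k := by
        have : 2 / δ = 2 * (1 / δ) := by ring
        rw [this]
        nlinarith [pow_pos (by norm_num : (0:ℝ) < 4) k]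
      linarith
    · intro j ε hε hp
      have h1 := norm_T'_coarse (measurable_Dj j) (Dj_periodic j) (abs_Dj j) (norm_nonneg z) hz hε (Dj_const hp)
      rw [← hx] at h1
      refine h1.trans (le_of_eq ?_)
      ring
  have hfine : ∑' j, ‖T' (Dj (j + k)) z‖ ≤ 8 * Real.pi / δ ^ 2 * (1 / 4 ^ k * (1 / 3)) := by
    rw [← (hgeo k).tsum_eq]
    apply Summable.tsum_le_tsum
    · intro j; exact norm_T'_Dj hz (j + k)
    · exact (summable_nat_add_iff k).mpr hsum
    · exact (hgeo k).summable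
  have h1 : 8 / 3 * (4 * Real.pi) * 4 ^ k ≤ 8 / 3 * (4 * Real.pi) * (4 / δ) := by gcongr
  have h2 : 8 * Real.pi / δ ^ 2 * (1 / 4 ^ k * (1 / 3)) ≤ 8 * Real.pi / δ ^ 2 * (δ * (1 / 3)) := by
    gcongr
    rw [div_le_iff₀ (by positivity)]
    rw [div_le_iff₀ hd] at hk1
    linarith
  have h3 : 8 / 3 * (4 * Real.pi) * (4 / δ) + 8 * Real.pi / δ ^ 2 * (δ * (1 / 3)) = (136 / 3) * Real.pi / δ := by
    field_simp; ring
  have h4 : (136 / 3) * Real.pi / δ ≤ 150 * Real.pi / δ := by gcongr; norm_num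
  linarith

noncomputable def F (z : ℂ) : ℂ := 1 + ∑' j, T (Dj j) z

lemma summable_T_Dj {ρ : ℝ} (hρ : ρ < 1) (hρ0 : 0 ≤ ρ) : Summable (fun j : ℕ => 4 * Real.pi / (1 - ρ ^ 2) * (1 / 4 ^ (j + 1))) := by
  apply Summable.mul_left
  have h1 : Summable (fun j : ℕ => ((1:ℝ) / 4) ^ j) := summable_geometric_of_lt_one (by norm_num) (by norm_num)
  have := (summable_nat_add_iff 1).mpr h1
  simpa [div_pow] using this

lemma norm_T_Dj' {ρ : ℝ} (hρ : ρ < 1) {z : ℂ} (hz : ‖z‖ < ρ) (j : ℕ) : ‖T (Dj j) z‖ ≤ 4 * Real.pi / (1 - ρ ^ 2) * (1 / 4 ^ (j + 1)) := by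
  refine (norm_T_Dj (hz.trans hρ) j).trans ?_
  have : 0 < 1 - ρ ^ 2 := by nlinarith [norm_nonneg z]
  have hpi := Real.pi_pos
  gcongr

lemma hasSum_F {z : ℂ} (hz : ‖z‖ < 1) : Tendsto (fun k => T (M k) z) atTop (𝓝 (F z)) := by
  obtain ⟨ρ, h1, h2⟩ := exists_between hz
  have hs : Summable (fun j => T (Dj j) z) := by
    apply Summable.of_norm
    exact Summable.of_nonneg_of_le (fun _ => norm_nonneg _) (fun j => norm_T_Dj' h2 h1 j) (summable_T_Dj h2 ((norm_nonneg z).trans h1.le))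
  simp_rw [T_sum _ hz]
  exact (hs.hasSum.tendsto_sum_nat).const_add 1

lemma hasDerivAt_F {z : ℂ} (hz : ‖z‖ < 1) : DifferentiableAt ℂ F z ∧ deriv F z = ∑' j, T' (Dj j) z := by
  obtain ⟨ρ, h1, h2⟩ := exists_between hz
  have hρ0 := (norm_nonneg z).trans h1.le
  have hdiff : ∀ j, DifferentiableOn ℂ (T (Dj j)) (ball 0 ρ) := by
    intro j w hw
    have hw' : ‖w‖ < 1 := lt_trans (by simpa using hw) h2
    exact (hasDerivAt_T (measurable_Dj j) (abs_Dj j) hw').differentiableAt.differentiableWithinAt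
  have hle : ∀ (j : ℕ) (w : ℂ), w ∈ ball (0:ℂ) ρ → ‖T (Dj j) w‖ ≤ 4 * Real.pi / (1 - ρ ^ 2) * (1 / 4 ^ (j + 1)) := by
    intro j w hw
    exact norm_T_Dj' h2 (by simpa using hw) j
  have hzb : z ∈ ball (0:ℂ) ρ := by simpa using h1
  have hd := differentiableOn_tsum_of_summable_norm (summable_T_Dj h2 hρ0) hdiff isOpen_ball hle
  have hda : DifferentiableAt ℂ (fun w => ∑' j, T (Dj j) w) z := (hd z hzb).differentiableAt (isOpen_ball.mem_nhds hzb)
  have hs := hasSum_deriv_of_summable_norm (summable_T_Dj h2 hρ0) hdiff isOpen_ball hle hzb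
  constructor
  · exact hda.const_add 1
  · unfold F
    rw [deriv_const_add]
    rw [← hs.tsum_eq]
    congr 1
    funext j
    exact (hasDerivAt_T (measurable_Dj j) (abs_Dj j) hz).deriv

lemma F_bloch {z : ℂ} (hz : ‖z‖ < 1) : (1 - ‖z‖ ^ 2) * ‖deriv F z‖ ≤ 300 * Real.pi := by
  have hpi := Real.pi_pos
  have hd : 0 < 1 - ‖z‖ := by linarith
  obtain ⟨hs, hle⟩ := sum_T'_Dj hz
  rw [(hasDerivAt_F hz).2]
  have h1 : ‖∑' j, T' (Dj j) z‖ ≤ 150 * Real.pi / (1 - ‖z‖) := (norm_tsum_le_tsum_norm hs).trans hle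
  have h2 : 1 - ‖z‖ ^ 2 ≤ 2 * (1 - ‖z‖) := by nlinarith [norm_nonneg z]
  calc (1 - ‖z‖ ^ 2) * ‖∑' j, T' (Dj j) z‖ ≤ (2 * (1 - ‖z‖)) * (150 * Real.pi / (1 - ‖z‖)) := by
        apply mul_le_mul h2 h1 (norm_nonneg _) (by positivity)
    _ = 300 * Real.pi := by field_simp; norm_num

lemma re_T_ge {k n : ℕ} {i : ℕ} (hi : i < 4 ^ k) {z : ℂ} (hz : ‖z‖ < 1) {c : ℝ}
    (hc : ∀ x ∈ Icc ((i:ℝ) / 4 ^ k) (((i:ℝ) + 1) / 4 ^ k), c ≤ (H z x).re) :
    c * ((m k i : ℝ) / 4 ^ k) ≤ (T (M (k + n)) z).re := by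
  have h4 : (0:ℝ) < 4 ^ k := by positivity
  have hiH : ∀ a b : ℝ, IntervalIntegrable (fun x => H z x * (M (k + n) x : ℂ)) volume a b := by
    intro a b
    have hb : ∀ x, ‖H z x‖ ≤ 2 / (1 - ‖z‖) := by
      intro x
      unfold H
      rw [norm_div]
      have hd : 0 < 1 - ‖z‖ := by linarith
      apply div_le_div₀ (by norm_num) _ hd (norm_sub_ge hz x)
      refine (norm_add_le _ _).trans ?_
      rw [norm_e]; linarith
    apply ii_of_bdd _ (2 / (1 - ‖z‖) * (((k + n : ℕ) : ℝ) + 1))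
    · intro x
      rw [norm_mul, Complex.norm_real, Real.norm_of_nonneg (M_nonneg _ _)]
      exact mul_le_mul (hb x) (M_le _ _) (M_nonneg _ _) (by have : 0 < 1 - ‖z‖ := by linarith
                                                            positivity)
    · exact ((continuous_H hz).measurable.mul (Complex.measurable_ofReal.comp (measurable_M _))).aestronglyMeasurable
  have hre : (T (M (k + n)) z).re = ∫ x in (0:ℝ)..1, (H z x).re * M (k + n) x := by
    unfold T
    have := Complex.reCLM.intervalIntegral_comp_comm (μ := volume) (hiH 0 1)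
    simp only [Complex.reCLM_apply] at this
    rw [← this]
    congr 1
    funext x
    simp
  have hii : ∀ a b : ℝ, IntervalIntegrable (fun x => (H z x).re * M (k + n) x) volume a b := by
    intro a b
    have := (hiH a b)
    have h2 : (fun x => (H z x).re * M (k + n) x) = fun x => Complex.reCLM (H z x * (M (k + n) x : ℂ)) := by
      funext x; simp
    rw [h2]
    exact ⟨Complex.reCLM.integrable_comp this.1, Complex.reCLM.integrable_comp this.2⟩
  have hnn : ∀ x, 0 ≤ (H z x).re * M (k + n) x := by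
    intro x
    apply mul_nonneg _ (M_nonneg _ _)
    rw [re_H hz]
    apply div_nonneg _ (by positivity)
    nlinarith [norm_nonneg z]
  have hab : (i:ℝ) / 4 ^ k ≤ ((i:ℝ) + 1) / 4 ^ k := by
    apply div_le_div_of_nonneg_right _ h4.le; linarith
  have ha0 : 0 ≤ (i:ℝ) / 4 ^ k := by positivity
  have hb1 : ((i:ℝ) + 1) / 4 ^ k ≤ 1 := by
    rw [div_le_one h4]; exact_mod_cast hi
  rw [hre]
  have hmono : ∫ x in ((i:ℝ) / 4 ^ k)..(((i:ℝ) + 1) / 4 ^ k), (H z x).re * M (k + n) x ≤ ∫ x in (0:ℝ)..1, (H z x).re * M (k + n) x := by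
    apply intervalIntegral.integral_mono_interval ha0 hab hb1
    · exact Eventually.of_forall hnn
    · exact hii 0 1
  refine le_trans ?_ hmono
  have hI := integral_M n k (i : ℤ)
  rw [Int.cast_natCast] at hI
  rw [← hI, ← intervalIntegral.integral_const_mul]
  apply intervalIntegral.integral_mono_on hab
  · exact (intervalIntegrable_M _ _ _).const_mul c
  · exact hii _ _
  · intro x hx
    exact mul_le_mul_of_nonneg_right (hc x hx) (M_nonneg _ _)

lemma re_F_ge {k : ℕ} {i : ℕ} (hi : i < 4 ^ k) {z : ℂ} (hz : ‖z‖ < 1) {c : ℝ}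
    (hc : ∀ x ∈ Icc ((i:ℝ) / 4 ^ k) (((i:ℝ) + 1) / 4 ^ k), c ≤ (H z x).re) :
    c * ((m k i : ℝ) / 4 ^ k) ≤ (F z).re := by
  have h1 := (Complex.continuous_re.tendsto _).comp (hasSum_F hz)
  apply ge_of_tendsto h1
  filter_upwards [eventually_ge_atTop k] with K hK
  obtain ⟨n, rfl⟩ := Nat.exists_eq_add_of_le hK
  exact re_T_ge hi hz hc

lemma F_pos {z : ℂ} (hz : ‖z‖ < 1) : 0 < (F z).re := by
  have h := re_F_ge (k := 0) (i := 0) (by norm_num) hz (c := (1 - ‖z‖ ^ 2) / (1 + ‖z‖) ^ 2) ?_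
  · have h0 : 0 < 1 - ‖z‖ ^ 2 := by nlinarith [norm_nonneg z]
    have h1 : 0 < (1 - ‖z‖ ^ 2) / (1 + ‖z‖) ^ 2 := by have := norm_nonneg z; positivity
    have h2 : ((m 0 ((0:ℕ) : ℤ) : ℕ) : ℝ) / 4 ^ 0 = 1 := by simp [m]
    rw [h2, mul_one] at h
    linarith
  · intro x _
    rw [re_H hz]
    have h0 : 0 < 1 - ‖z‖ ^ 2 := by nlinarith [norm_nonneg z]
    apply div_le_div_of_nonneg_left h0.le
    · have := norm_pos_iff.mpr (sub_ne hz x); positivity
    · apply pow_le_pow_left₀ (norm_nonneg _)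
      have := norm_sub_le (e x) z
      rwa [norm_e] at this

lemma F_zero : F 0 = 1 := by
  have hz : ‖(0:ℂ)‖ < 1 := by simp
  have h := hasSum_F hz
  have h1 : ∀ k, T (M k) 0 = 1 := by
    intro k
    unfold T
    have : ∀ x, H 0 x * (M k x : ℂ) = ((M k x : ℝ) : ℂ) := by
      intro x
      have hx : e x ≠ 0 := by
        have := norm_e x
        intro h; rw [h] at this; simp at this
      simp [H, hx]
    simp_rw [this]
    rw [intervalIntegral.integral_ofReal, integral_M_unit]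
    simp
  simp_rw [h1] at h
  exact tendsto_nhds_unique h tendsto_const_nhds |>.symm ▸ rfl

lemma F_diff : DifferentiableOn ℂ F (ball 0 1) := by
  intro z hz
  exact (hasDerivAt_F (by simpa using hz)).1.differentiableWithinAt

/-- pointwise lower bound at scale `4^(-k)` -/
lemma F_lower {k : ℕ} (hk : 1 ≤ k) {x : ℝ} (hx0 : 0 ≤ x) (hx1 : x < 1) :
    M k x / (2 * Real.pi + 1) ^ 2 ≤ (F (((1 - 1 / 4 ^ k : ℝ) : ℂ) * e x)).re := by
  have h4 : (0:ℝ) < 4 ^ k := by positivity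
  have hpi := Real.pi_pos
  set r : ℝ := 1 - 1 / 4 ^ k with hr
  have h14 : (1:ℝ) / 4 ^ k ≤ 1 := by
    rw [div_le_one h4]; exact one_le_pow₀ (by norm_num)
  have hr0 : 0 ≤ r := by linarith
  have hr1 : r < 1 := by have : (0:ℝ) < 1 / 4 ^ k := by positivity
                         linarith
  have hnz : ‖(r:ℂ) * e x‖ = r := by rw [norm_mul, norm_e, Complex.norm_real, Real.norm_of_nonneg hr0, mul_one]
  have hz : ‖(r:ℂ) * e x‖ < 1 := by rw [hnz]; exact hr1
  have hfl0 : 0 ≤ ⌊(4:ℝ) ^ k * x⌋ := Int.floor_nonneg.mpr (by positivity)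
  obtain ⟨i, hi⟩ := Int.eq_ofNat_of_zero_le hfl0
  have hflt : ⌊(4:ℝ) ^ k * x⌋ < 4 ^ k := by
    rw [Int.floor_lt]; push_cast; nlinarith
  have hi4 : i < 4 ^ k := by
    rw [hi] at hflt; exact_mod_cast hflt
  have hl1 := Int.floor_le ((4:ℝ) ^ k * x)
  have hl2 := Int.lt_floor_add_one ((4:ℝ) ^ k * x)
  rw [hi] at hl1 hl2
  push_cast at hl1 hl2
  have h := re_F_ge hi4 hz (c := 4 ^ k / (2 * Real.pi + 1) ^ 2) ?_
  · have hM : M k x = (m k i : ℝ) := by unfold M; rw [hi]
    rw [hM]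
    refine le_trans (le_of_eq ?_) h
    field_simp
  · intro y hy
    rw [re_H hz, hnz]
    have hyx : |y - x| ≤ 1 / 4 ^ k := by
      have hy1 := hy.1
      have hy2 := hy.2
      rw [div_le_iff₀ h4] at hy1
      rw [le_div_iff₀ h4] at hy2
      have : |y - x| * 4 ^ k ≤ 1 := by
        rw [← abs_of_pos h4, ← abs_mul, abs_le]
        constructor <;> nlinarith
      rwa [le_div_iff₀ h4]
    have hn : ‖e y - (r:ℂ) * e x‖ ≤ (2 * Real.pi + 1) * (1 / 4 ^ k) := by
      have a1 : ‖e y - (r:ℂ) * e x‖ ≤ ‖e y - e x‖ + ‖e x - (r:ℂ) * e x‖ := by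
        have := norm_add_le (e y - e x) (e x - (r:ℂ) * e x)
        simpa using this
      have a2 := norm_e_sub_le y x
      have a3 : ‖e x - (r:ℂ) * e x‖ = 1 / 4 ^ k := by
        have : e x - (r:ℂ) * e x = ((1 - r : ℝ) : ℂ) * e x := by push_cast; ring
        rw [this, norm_mul, norm_e, mul_one, Complex.norm_real, Real.norm_of_nonneg (by linarith), hr]
        ring
      nlinarith
    have hpos : 0 < ‖e y - (r:ℂ) * e x‖ := norm_pos_iff.mpr (sub_ne hz y)
    rw [div_le_div_iff₀ (by positivity) (by positivity)]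
    have h5 : ‖e y - (r:ℂ) * e x‖ ^ 2 ≤ ((2 * Real.pi + 1) * (1 / 4 ^ k)) ^ 2 := pow_le_pow_left₀ hpos.le hn 2
    have h6 : (1 / 4 ^ k : ℝ) ≤ 1 - r ^ 2 := by
      have : 1 - r = 1 / 4 ^ k := by rw [hr]; ring
      nlinarith
    calc (4:ℝ) ^ k * ‖e y - (r:ℂ) * e x‖ ^ 2 ≤ 4 ^ k * ((2 * Real.pi + 1) * (1 / 4 ^ k)) ^ 2 := by gcongr
      _ = (1 / 4 ^ k) * (2 * Real.pi + 1) ^ 2 := by field_simp
      _ ≤ (1 - r ^ 2) * (2 * Real.pi + 1) ^ 2 := by gcongr

lemma moment_lower {k : ℕ} (hk : 1 ≤ k) :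
    √((k:ℝ) + 1) / (2 * Real.pi + 1) ^ 4 ≤ Real.circleAverage (fun z => (F z).re ^ 2) 0 (1 - 1 / 4 ^ k) := by
  have h4 : (0:ℝ) < 4 ^ k := by positivity
  have hpi := Real.pi_pos
  set r : ℝ := 1 - 1 / 4 ^ k with hr
  have h14 : (1:ℝ) / 4 ^ k ≤ 1 := by
    rw [div_le_one h4]; exact one_le_pow₀ (by norm_num)
  have hr0 : 0 ≤ r := by linarith
  have hr1 : r < 1 := by have : (0:ℝ) < 1 / 4 ^ k := by positivity
                         linarith
  rw [← circleAverage_scale (fun z => (F z).re ^ 2) r]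
  have hc : ((Real.circleAverage (fun z => (F (r * z)).re ^ 2) 0 1 : ℝ)) = ∫ x in (0:ℝ)..1, (F (r * e x)).re ^ 2 := by
    unfold Real.circleAverage
    have h := intervalIntegral.integral_comp_mul_left (a := 0) (b := 1) (fun θ => (F (r * circleMap 0 1 θ)).re ^ 2) (c := 2 * Real.pi) (by positivity)
    simp only [mul_zero, mul_one] at h
    rw [← h]
    apply intervalIntegral.integral_congr
    intro x _
    simp [circleMap, e]
  rw [hc]
  have hV := V_ge k
  have hcont : Continuous (fun x => (F (r * e x)).re ^ 2) := by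
    have h1 : ContinuousOn F (ball 0 1) := F_diff.continuousOn
    have h2 : Continuous (fun x => (r:ℂ) * e x) := continuous_const.mul continuous_e
    have h3 : Continuous (fun x => F ((r:ℂ) * e x)) := by
      apply h1.comp_continuous h2
      intro x
      rw [mem_ball_zero_iff, norm_mul, norm_e, Complex.norm_real, Real.norm_of_nonneg hr0, mul_one]
      exact hr1
    exact (Complex.continuous_re.comp h3).pow 2
  have hle : ∫ x in (0:ℝ)..1, (M k x) ^ 2 * (1 / (2 * Real.pi + 1) ^ 4) ≤ ∫ x in (0:ℝ)..1, (F (r * e x)).re ^ 2 := by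
    apply intervalIntegral.integral_mono_on_of_le_Ioo zero_le_one
    · apply ii_of_bdd (((measurable_M k).pow_const 2).mul_const _).aestronglyMeasurable (((k:ℝ) + 1) ^ 2 * (1 / (2 * Real.pi + 1) ^ 4))
      intro x
      rw [Real.norm_of_nonneg (by positivity)]
      gcongr
      · exact M_nonneg k x
      · exact M_le k x
    · exact hcont.intervalIntegrable _ _
    · intro x hx
      have h1 := F_lower hk hx.1.le hx.2
      have h2 : 0 ≤ M k x / (2 * Real.pi + 1) ^ 2 := div_nonneg (M_nonneg k x) (by positivity)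
      have h3 := pow_le_pow_left₀ h2 h1 2
      refine le_trans (le_of_eq ?_) h3
      rw [div_pow]; ring
  rw [intervalIntegral.integral_mul_const, integral_M_sq] at hle
  refine le_trans ?_ hle
  rw [div_eq_mul_one_div]
  gcongr

lemma S_lower_aux {f : ℂ → ℂ} (hf : DifferentiableOn ℂ f (ball 0 1)) (h1 : f 0 = 1) {r : ℝ} (hr0 : 0 ≤ r) (hr1 : r < 1) (N : ℕ) :
    2 * Real.circleAverage (fun z => (f z).re ^ 2) 0 r - 2 ≤
      S f N + r ^ N * (2 * Real.circleAverage (fun z => (f z).re ^ 2) 0 (√r) - 2) := by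
  have hs1 := second_moment hf h1 hr0 hr1
  have hsq1 : √r < 1 := by rw [Real.sqrt_lt' one_pos]; simpa using hr1
  have hs2 := second_moment hf h1 (Real.sqrt_nonneg r) hsq1
  rw [Real.sq_sqrt hr0] at hs2
  have hs3 : HasSum (fun n => if n ∈ Finset.range N then ‖coeff f (n + 1)‖ ^ 2 else 0) (S f N) := by
    rw [S_eq]
    have := hasSum_sum_of_ne_finset_zero (f := fun n => if n ∈ Finset.range N then ‖coeff f (n + 1)‖ ^ 2 else 0) (s := Finset.range N) (L := SummationFilter.unconditional ℕ) ?_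
    · refine (congrArg (HasSum _ ·) ?_).mp this
      apply Finset.sum_congr rfl
      intro n hn
      simp [Finset.mem_range.mp hn]
    · intro n hn
      simp only [hn, if_false]
  have hs4 := hs3.add (hs2.mul_left (r ^ N))
  apply hasSum_le _ hs1 hs4
  intro n
  by_cases hn : n < N
  · have e1 : (if n ∈ Finset.range N then ‖coeff f (n + 1)‖ ^ 2 else 0) = ‖coeff f (n + 1)‖ ^ 2 := by simp [hn]
    have e2 : ‖coeff f (n + 1)‖ ^ 2 * (r ^ 2) ^ (n + 1) ≤ ‖coeff f (n + 1)‖ ^ 2 * 1 := by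
      apply mul_le_mul_of_nonneg_left _ (by positivity)
      apply pow_le_one₀ (by positivity)
      nlinarith
    have e3 : 0 ≤ r ^ N * (‖coeff f (n + 1)‖ ^ 2 * r ^ (n + 1)) := by positivity
    simp only [e1]
    linarith
  · have e1 : (if n ∈ Finset.range N then ‖coeff f (n + 1)‖ ^ 2 else 0) = 0 := by simp [hn]
    simp only [e1, zero_add]
    push Not at hn
    have e2 : (r ^ 2) ^ (n + 1) ≤ r ^ N * r ^ (n + 1) := by
      rw [← pow_mul, two_mul, pow_add]
      apply mul_le_mul_of_nonneg_right _ (by positivity)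
      exact pow_le_pow_of_le_one hr0 hr1.le (by omega)
    calc ‖coeff f (n + 1)‖ ^ 2 * (r ^ 2) ^ (n + 1) ≤ ‖coeff f (n + 1)‖ ^ 2 * (r ^ N * r ^ (n + 1)) := by gcongr
      _ = _ := by ring

lemma F_bloch' : ∀ z ∈ ball (0:ℂ) 1, (1 - ‖z‖ ^ 2) * ‖deriv F z‖ ≤ 300 * Real.pi := by
  intro z hz; exact F_bloch (by simpa using hz)

lemma F_pos' : ∀ z ∈ ball (0:ℂ) 1, 0 < (F z).re := by
  intro z hz; exact F_pos (by simpa using hz)

noncomputable def c1 : ℝ := 1 / (2 * Real.pi + 1) ^ 4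
noncomputable def c2 : ℝ := 16 * Real.exp ((300 * Real.pi) ^ 2 / 4) * √(Real.log 4)

lemma c1_pos : 0 < c1 := by unfold c1; have := Real.pi_pos; positivity
lemma log4 : 1 ≤ Real.log 4 := by
  rw [Real.le_log_iff_exp_le (by norm_num)]
  exact Real.exp_one_lt_d9.le.trans (by norm_num)
lemma c2_pos : 0 < c2 := by
  unfold c2
  have := log4
  have h : 0 < √(Real.log 4) := Real.sqrt_pos.mpr (by linarith)
  positivity

lemma S_F_lower {k N : ℕ} (hk : 1 ≤ k) {L : ℝ} (hL : L * 4 ^ k ≤ N) :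
    2 * (c1 * √((k:ℝ) + 1)) - 2 ≤ S F N + Real.exp (-L) * (c2 * √(k:ℝ)) := by
  have h4 : (0:ℝ) < 4 ^ k := by positivity
  set r : ℝ := 1 - 1 / 4 ^ k with hr
  have h14 : (1:ℝ) / 4 ^ k ≤ 1 := by
    rw [div_le_one h4]; exact one_le_pow₀ (by norm_num)
  have hr0 : 0 ≤ r := by linarith
  have hr1 : r < 1 := by have : (0:ℝ) < 1 / 4 ^ k := by positivity
                         linarith
  have hsq1 : √r < 1 := by rw [Real.sqrt_lt' one_pos]; simpa using hr1
  have hm := moment_lower hk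
  have ha := S_lower_aux F_diff F_zero hr0 hr1 N
  have hk1 : (1:ℝ) ≤ k := by exact_mod_cast hk
  have hu := moment_bound F_diff F_zero F_pos' F_bloch' (L := k * Real.log 4) (by nlinarith [log4]) (Real.sqrt_nonneg r) hsq1 (by
    rw [Real.sq_sqrt hr0, hr, ← mul_neg, mul_comm, Real.exp_mul]
    rw [Real.exp_neg, Real.exp_log (by norm_num), Real.rpow_natCast, inv_pow]
    ring)
  have hrN : r ^ N ≤ Real.exp (-L) := by
    have h1 : r ≤ Real.exp (-(1 / 4 ^ k)) := by
      have := Real.add_one_le_exp (-(1 / (4:ℝ) ^ k)); rw [hr]; linarith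
    calc r ^ N ≤ (Real.exp (-(1 / 4 ^ k))) ^ N := pow_le_pow_left₀ hr0 h1 N
      _ = Real.exp (-(N / 4 ^ k)) := by rw [← Real.exp_nat_mul]; congr 1; ring
      _ ≤ Real.exp (-L) := by
        apply Real.exp_le_exp.mpr
        apply neg_le_neg
        rw [le_div_iff₀ h4]; exact hL
  have hsk : √((k:ℝ) * Real.log 4) = √(Real.log 4) * √(k:ℝ) := by
    rw [mul_comm, Real.sqrt_mul (by linarith [log4])]
  rw [hsk] at hu
  have hc1 : c1 * √((k:ℝ) + 1) = √((k:ℝ) + 1) / (2 * Real.pi + 1) ^ 4 := by unfold c1; ring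
  have hc2 : 2 * Real.circleAverage (fun z => (F z).re ^ 2) 0 (√r) - 2 ≤ c2 * √(k:ℝ) := by
    unfold c2; linarith
  have hc3 : r ^ N * (2 * Real.circleAverage (fun z => (F z).re ^ 2) 0 (√r) - 2) ≤ Real.exp (-L) * (c2 * √(k:ℝ)) := by
    calc r ^ N * (2 * Real.circleAverage (fun z => (F z).re ^ 2) 0 (√r) - 2) ≤ r ^ N * (c2 * √(k:ℝ)) := by gcongr
      _ ≤ _ := by
        apply mul_le_mul_of_nonneg_right hrN
        have := c2_pos
        positivity
  rw [hc1]
  linarith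

lemma F_isBigO : (fun N : ℕ => √(Real.log N)) =O[atTop] (fun N => S F N) := by
  have hc1 := c1_pos
  have hc2 := c2_pos
  -- choose L0
  obtain ⟨L0, hL0⟩ : ∃ L0 : ℕ, 1 ≤ L0 ∧ Real.exp (-(L0:ℝ)) * c2 ≤ c1 := by
    have h1 : Tendsto (fun n : ℕ => Real.exp (-(n:ℝ)) * c2) atTop (𝓝 0) := by
      have : Tendsto (fun n : ℕ => Real.exp (-(n:ℝ))) atTop (𝓝 0) :=
        Real.tendsto_exp_neg_atTop_nhds_zero.comp tendsto_natCast_atTop_atTop
      simpa using this.mul_const c2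
    have h2 := (h1.eventually (gt_mem_nhds hc1)).and (eventually_ge_atTop 1)
    obtain ⟨n, hn1, hn2⟩ := h2.exists
    exact ⟨n, hn2, hn1.le⟩
  obtain ⟨hL1, hL2⟩ := hL0
  -- threshold K
  obtain ⟨K, hK⟩ := exists_nat_ge ((4 / c1) ^ 2)
  rw [isBigO_iff]
  refine ⟨√(Real.log L0 + Real.log 4) * (2 / c1), ?_⟩
  filter_upwards [eventually_ge_atTop (L0 * 4 ^ (K + 1))] with N hN
  set k := Nat.log 4 (N / L0) with hk
  have hdiv : 4 ^ (K + 1) ≤ N / L0 := by
    rw [Nat.le_div_iff_mul_le (by omega)]; rw [mul_comm]; exact hN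
  have hdiv0 : N / L0 ≠ 0 := by
    have : 0 < 4 ^ (K + 1) := by positivity
    omega
  have hkK : K + 1 ≤ k := Nat.le_log_of_pow_le (by norm_num) hdiv
  have hk4 : 4 ^ k ≤ N / L0 := Nat.pow_log_le_self 4 hdiv0
  have hkN : L0 * 4 ^ k ≤ N := by
    calc L0 * 4 ^ k ≤ L0 * (N / L0) := Nat.mul_le_mul_left _ hk4
      _ ≤ N := Nat.mul_div_le N L0
  have hNk : N < L0 * 4 ^ (k + 1) := by
    have h1 : N / L0 < 4 ^ (k + 1) := Nat.lt_pow_succ_log_self (by norm_num) _
    rw [mul_comm]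
    exact (Nat.div_lt_iff_lt_mul (by omega)).mp h1
  have hS := S_F_lower (k := k) (N := N) (by omega) (L := L0) (by exact_mod_cast hkN)
  have hkr : (K:ℝ) ≤ (k:ℝ) + 1 := by exact_mod_cast (by omega : K ≤ k + 1)
  have hsk : √(k:ℝ) ≤ √((k:ℝ) + 1) := Real.sqrt_le_sqrt (by linarith)
  have hexp : Real.exp (-(L0:ℝ)) * (c2 * √(k:ℝ)) ≤ c1 * √((k:ℝ) + 1) := by
    calc Real.exp (-(L0:ℝ)) * (c2 * √(k:ℝ)) = (Real.exp (-(L0:ℝ)) * c2) * √(k:ℝ) := by ring
      _ ≤ c1 * √((k:ℝ) + 1) := by gcongr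
  have hbig : 4 / c1 ≤ √((k:ℝ) + 1) := by
    apply Real.le_sqrt_of_sq_le; linarith
  have hbig2 : 4 ≤ c1 * √((k:ℝ) + 1) := by
    rw [div_le_iff₀ hc1] at hbig; linarith
  have hS2 : c1 / 2 * √((k:ℝ) + 1) ≤ S F N := by linarith
  have hSpos : 0 ≤ S F N := by unfold S; positivity
  have hN1 : 1 ≤ N := by
    have : 0 < 4 ^ (K + 1) := by positivity
    have : 0 < L0 * 4 ^ (K + 1) := by positivity
    omega
  have hlogN : Real.log N ≤ (Real.log L0 + Real.log 4) * ((k:ℝ) + 1) := by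
    have h1 : Real.log N ≤ Real.log (L0 * 4 ^ (k + 1)) := by
      apply Real.log_le_log (by positivity)
      exact_mod_cast hNk.le
    rw [Real.log_mul (by positivity) (by positivity), Real.log_pow] at h1
    have h2 : 0 ≤ Real.log (L0:ℝ) := Real.log_nonneg (by exact_mod_cast hL1)
    push_cast at h1
    nlinarith
  rw [Real.norm_of_nonneg (Real.sqrt_nonneg _), Real.norm_of_nonneg hSpos]
  calc √(Real.log N) ≤ √((Real.log L0 + Real.log 4) * ((k:ℝ) + 1)) := Real.sqrt_le_sqrt hlogN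
    _ = √(Real.log L0 + Real.log 4) * √((k:ℝ) + 1) := by
        rw [Real.sqrt_mul]
        have h2 : 0 ≤ Real.log (L0:ℝ) := Real.log_nonneg (by exact_mod_cast hL1)
        linarith [log4]
    _ = √(Real.log L0 + Real.log 4) * (2 / c1) * (c1 / 2 * √((k:ℝ) + 1)) := by field_simp
    _ ≤ _ := by gcongr

lemma upper {f : ℂ → ℂ} (hf : BlochPos f) :
    (fun N : ℕ => S f N) =O[atTop] (fun N : ℕ => √(Real.log N)) := by
  obtain ⟨B, hB⟩ := hf.bloch
  rw [isBigO_iff]
  refine ⟨128 * Real.exp (B ^ 2 / 4), ?_⟩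
  filter_upwards [eventually_ge_atTop 3] with N hN
  have hSpos : 0 ≤ S f N := by unfold S; positivity
  rw [Real.norm_of_nonneg (Real.sqrt_nonneg _), Real.norm_of_nonneg hSpos]
  exact S_le hf.holo hf.one hf.pos hB hN

lemma F_class : BlochPos F := ⟨F_diff, ⟨_, F_bloch'⟩, F_zero, F_pos'⟩

lemma tendsto_sqrt_log : Tendsto (fun N : ℕ => √(Real.log N)) atTop atTop :=
  Real.tendsto_sqrt_atTop.comp (Real.tendsto_log_atTop.comp tendsto_natCast_atTop_atTop)

lemma sqrt_log_isLittleO : (fun N : ℕ => √(Real.log N)) =o[atTop] (fun N : ℕ => Real.log N) := by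
  have h : (fun N : ℕ => √(Real.log N)) =o[atTop] (fun N : ℕ => √(Real.log N) * √(Real.log N)) := by
    have h1 : (fun _ : ℕ => (1:ℝ)) =o[atTop] (fun N : ℕ => √(Real.log N)) := by
      rw [isLittleO_const_left]
      right
      exact tendsto_norm_atTop_atTop.comp tendsto_sqrt_log
    have := h1.mul_isBigO (isBigO_refl (fun N : ℕ => √(Real.log N)) atTop)
    simpa using this
  refine h.congr' (EventuallyEq.refl _ _) ?_
  filter_upwards [eventually_ge_atTop 1] with N hN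
  exact Real.mul_self_sqrt (Real.log_nonneg (by exact_mod_cast hN))

/-- The rate of growth of `S_N(f)` over the class is `sqrt (log N)`: the upper bound holds for
every `f` in the class, it is attained by some `f` in the class; in particular
`S_N(f) = o(log N)` for every `f` in the class. -/
theorem result :
    (∀ f : ℂ → ℂ, BlochPos f → (fun N : ℕ => S f N) =O[atTop] (fun N : ℕ => √(Real.log N))) ∧
    (∃ f : ℂ → ℂ, BlochPos f ∧
      (fun N : ℕ => √(Real.log N)) =O[atTop] (fun N : ℕ => S f N) ∧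
      ¬ (fun N : ℕ => S f N) =o[atTop] (fun N : ℕ => √(Real.log N))) ∧
    (∀ f : ℂ → ℂ, BlochPos f → (fun N : ℕ => S f N) =o[atTop] (fun N : ℕ => Real.log N)) := by
  refine ⟨fun f hf => upper hf, ⟨F, F_class, F_isBigO, ?_⟩, fun f hf => (upper hf).trans_isLittleO sqrt_log_isLittleO⟩
  intro h
  have h1 := F_isBigO.trans_isLittleO h
  have h2 : ∀ᶠ N : ℕ in atTop, √(Real.log N) ≠ 0 := by
    filter_upwards [tendsto_sqrt_log.eventually_gt_atTop 0] with N hN
    exact hN.ne'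
  exact (isLittleO_irrefl h2.frequently) h1

end Pool.Agent.Results.MP_034cab_an.GrowthRate
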